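import Pool.Agent.helper14.NS.Q150f.PN1

/-!
Generated: certificates.
-/

namespace Pool.Agent.helper14.NS.Q150f

open Pool.Agent.helper31.IA (Z)
open Pool.Agent.helper31.IX (Op XOps runX Cov CovD cov_split covD_split)
open Pool.Agent.helper31.IC (TD)
open Pool.Agent.helper63.RG (reloc)
open Pool.Agent.helper63.NF hiding TD
open Pool.Agent.helper4.NS
open Pool.Agent.helper14.CF (xE covD_E)
open Pool.Agent.helper14.NR (share)

mutual
theorem A1_c0_t3 : CovD 1 gA1 [(6414139392, 917504000), (4672924418048, 274877906944), (2199023255552, 2199023255552)] :=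
  covD_E kA1_eq (.n 2 (.n 0 (.n 2 (.n 2 (.l 0) (.l 0)) (.n 2 (.l 0) (.l 0))) (.n 2 (.n 2 (.l 0) (.l 0)) (.n 2 (.l 0) (.l 0)))) (.n 2 (.n 0 (.n 2 (.l 0) (.l 0)) (.n 2 (.l 0) (.l 0))) (.n 2 (.n 2 (.l 0) (.n 0 (.l 1) (.l 1))) (.l 1))))
    [(6414139392, 917504000), (4672924418048, 274877906944), (2199023255552, 2199023255552)] rfl (by decide +kernel)
theorem A1_c0_t4 : CovD 1 gA1 [(6414139392, 917504000), (5222680231936, 274877906944), (2199023255552, 2199023255552)] :=
  covD_E kA1_eq (.n 2 (.n 2 (.n 2 (.l 0) (.n 0 (.l 0) (.l 0))) (.n 0 (.n 2 (.l 0) (.l 0)) (.n 2 (.l 0) (.l 0)))) (.n 2 (.n 0 (.n 2 (.l 0) (.l 0)) (.n 2 (.l 0) (.l 0))) (.n 2 (.n 2 (.l 0) (.n 0 (.l 1) (.l 1))) (.l 1))))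
    [(6414139392, 917504000), (5222680231936, 274877906944), (2199023255552, 2199023255552)] rfl (by decide +kernel)
end

mutual
theorem A1_c0_t5 : CovD 1 gA1 [(6414139392, 917504000), (4947802324992, 549755813888), (6597069766656, 2199023255552)] :=
  covD_E kA1_eq (.n 2 (.n 2 (.n 1 (.l 1) (.l 1)) (.l 1)) (.l 1))
    [(6414139392, 917504000), (4947802324992, 549755813888), (6597069766656, 2199023255552)] rfl (by decide +kernel)
theorem A1_c0_t8 : CovD 1 gA1 [(6414139392, 917504000), (5772436045824, 274877906944), (2199023255552, 2199023255552)] :=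
  covD_E kA1_eq (.n 2 (.n 2 (.n 2 (.l 0) (.l 0)) (.n 2 (.l 0) (.l 0))) (.n 2 (.n 2 (.l 0) (.l 0)) (.n 2 (.n 2 (.l 0) (.n 0 (.l 1) (.l 1))) (.n 0 (.l 1) (.l 1)))))
    [(6414139392, 917504000), (5772436045824, 274877906944), (2199023255552, 2199023255552)] rfl (by decide +kernel)
end

mutual
theorem A1_c0_t9 : CovD 1 gA1 [(6414139392, 917504000), (6322191859712, 274877906944), (2199023255552, 2199023255552)] :=
  covD_E kA1_eq (.n 2 (.n 2 (.n 0 (.l 0) (.l 0)) (.n 2 (.l 0) (.l 0))) (.n 2 (.n 2 (.l 0) (.l 0)) (.n 2 (.n 2 (.l 0) (.n 0 (.l 1) (.l 1))) (.n 0 (.l 1) (.l 1)))))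
    [(6414139392, 917504000), (6322191859712, 274877906944), (2199023255552, 2199023255552)] rfl (by decide +kernel)
theorem A1_c0_t10 : CovD 1 gA1 [(6414139392, 917504000), (6047313952768, 549755813888), (6597069766656, 2199023255552)] :=
  covD_E kA1_eq (.n 2 (.n 2 (.n 1 (.l 1) (.l 1)) (.l 1)) (.l 1))
    [(6414139392, 917504000), (6047313952768, 549755813888), (6597069766656, 2199023255552)] rfl (by decide +kernel)
end

mutual
theorem B1_c0_t5 : CovD 1 gB1 [(6414139392, 917504000), (5497558138880, 1099511627776), (2147483648, 2147483648)] :=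
  covD_E kB1_eq (.n 2 (.n 0 (.n 2 (.n 2 (.l 1) (.l 1)) (.n 2 (.l 1) (.l 1))) (.n 1 (.n 2 (.l 1) (.l 1)) (.n 2 (.l 1) (.l 1)))) (.n 2 (.n 0 (.n 1 (.l 1) (.l 1)) (.n 0 (.l 1) (.l 1))) (.n 2 (.n 0 (.l 1) (.l 1)) (.l 1))))
    [(6414139392, 917504000), (5497558138880, 1099511627776), (2147483648, 2147483648)] rfl (by decide +kernel)
theorem B1_c0_t6 : CovD 1 gB1 [(6414139392, 917504000), (5497558138880, 1099511627776), (6442450944, 2147483648)] :=
  covD_E kB1_eq (.n 2 (.n 0 (.n 2 (.l 1) (.l 1)) (.n 2 (.l 1) (.l 1))) (.n 2 (.n 0 (.l 1) (.l 1)) (.l 1)))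
    [(6414139392, 917504000), (5497558138880, 1099511627776), (6442450944, 2147483648)] rfl (by decide +kernel)
end

mutual
theorem B1_c0_t7 : CovD 1 gB1 [(6414139392, 917504000), (5497558138880, 1099511627776), (12884901888, 4294967296)] :=
  covD_E kB1_eq (.n 2 (.n 0 (.n 2 (.l 1) (.l 1)) (.n 2 (.l 1) (.l 1))) (.n 2 (.l 1) (.l 1)))
    [(6414139392, 917504000), (5497558138880, 1099511627776), (12884901888, 4294967296)] rfl (by decide +kernel)
theorem B1_c0_t8 : CovD 1 gB1 [(6414139392, 917504000), (5497558138880, 1099511627776), (25769803776, 8589934592)] :=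
  covD_E kB1_eq (.n 2 (.n 2 (.n 0 (.l 1) (.l 1)) (.l 1)) (.n 2 (.l 1) (.l 1)))
    [(6414139392, 917504000), (5497558138880, 1099511627776), (25769803776, 8589934592)] rfl (by decide +kernel)
end

mutual
theorem B1_c0_t9 : CovD 1 gB1 [(6414139392, 917504000), (5497558138880, 1099511627776), (51539607552, 17179869184)] :=
  covD_E kB1_eq (.n 2 (.n 0 (.n 2 (.l 1) (.l 1)) (.n 2 (.l 1) (.l 1))) (.n 2 (.l 1) (.l 1)))
    [(6414139392, 917504000), (5497558138880, 1099511627776), (51539607552, 17179869184)] rfl (by decide +kernel)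
theorem B1_c0_t10 : CovD 1 gB1 [(6414139392, 917504000), (5497558138880, 1099511627776), (103079215104, 34359738368)] :=
  covD_E kB1_eq (.n 1 (.n 2 (.n 2 (.l 1) (.l 1)) (.n 0 (.l 1) (.l 1))) (.n 2 (.n 2 (.l 1) (.l 1)) (.l 1)))
    [(6414139392, 917504000), (5497558138880, 1099511627776), (103079215104, 34359738368)] rfl (by decide +kernel)
end

mutual
theorem D1_c0_t2 : CovD 1 gD1 [(6414139392, 917504000), (5497558138880, 1099511627776), (215902584832, 215902584832)] :=
  covD_E kD1_eq (.n 2 (.n 2 (.n 1 (.n 1 (.l 0) (.l 0)) (.n 1 (.l 0) (.l 0))) (.n 1 (.n 1 (.l 0) (.l 0)) (.n 1 (.l 0) (.l 0)))) (.n 2 (.n 1 (.n 1 (.l 0) (.l 0)) (.n 1 (.l 0) (.l 0))) (.n 1 (.n 1 (.l 0) (.l 0)) (.n 1 (.l 0) (.l 0)))))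
    [(6414139392, 917504000), (5497558138880, 1099511627776), (215902584832, 215902584832)] rfl (by decide +kernel)
theorem D1_c0_t3 : CovD 1 gD1 [(6414139392, 917504000), (5497558138880, 1099511627776), (647707754496, 215902584832)] :=
  covD_E kD1_eq (.n 2 (.n 2 (.n 1 (.n 1 (.l 0) (.l 0)) (.n 1 (.l 0) (.l 0))) (.n 1 (.n 1 (.l 0) (.l 0)) (.n 1 (.l 0) (.l 0)))) (.n 2 (.n 1 (.n 1 (.l 0) (.l 0)) (.n 1 (.l 0) (.l 0))) (.n 1 (.n 1 (.l 0) (.l 0)) (.n 1 (.l 0) (.l 0)))))
    [(6414139392, 917504000), (5497558138880, 1099511627776), (647707754496, 215902584832)] rfl (by decide +kernel)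
end

mutual
theorem D1_c0_t5 : CovD 1 gD1 [(6414139392, 917504000), (5497558138880, 1099511627776), (1079512924160, 215902584832)] :=
  covD_E kD1_eq (.n 2 (.n 2 (.n 1 (.n 1 (.l 0) (.l 0)) (.n 1 (.l 0) (.l 0))) (.n 1 (.n 1 (.l 0) (.l 0)) (.n 1 (.l 0) (.l 0)))) (.n 2 (.n 1 (.n 1 (.l 0) (.l 0)) (.n 1 (.l 0) (.l 0))) (.n 1 (.n 1 (.l 0) (.l 0)) (.n 1 (.l 0) (.l 0)))))
    [(6414139392, 917504000), (5497558138880, 1099511627776), (1079512924160, 215902584832)] rfl (by decide +kernel)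
theorem D1_c0_t7 : CovD 1 gD1 [(6414139392, 917504000), (5497558138880, 1099511627776), (1403366801408, 107951292416)] :=
  covD_E kD1_eq (.n 2 (.n 1 (.n 1 (.l 0) (.l 0)) (.n 1 (.l 0) (.n 0 (.l 0) (.l 0)))) (.n 1 (.n 1 (.l 0) (.l 0)) (.n 1 (.l 0) (.n 0 (.l 0) (.l 0)))))
    [(6414139392, 917504000), (5497558138880, 1099511627776), (1403366801408, 107951292416)] rfl (by decide +kernel)
end

mutual
theorem D1_c0_t8 : CovD 1 gD1 [(6414139392, 917504000), (5497558138880, 1099511627776), (1619269386240, 107951292416)] :=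
  covD_E kD1_eq (.n 2 (.n 1 (.n 1 (.l 0) (.l 0)) (.n 1 (.l 0) (.n 0 (.l 0) (.l 0)))) (.n 1 (.n 1 (.l 0) (.l 0)) (.n 1 (.l 0) (.n 0 (.l 0) (.l 0)))))
    [(6414139392, 917504000), (5497558138880, 1099511627776), (1619269386240, 107951292416)] rfl (by decide +kernel)
theorem E1_c0_t5 : CovD 1 gE1 [(6414139392, 917504000), (5497558138880, 1099511627776), (26987823104, 26987823104)] :=
  covD_E kE1_eq (.n 2 (.n 1 (.n 2 (.l 1) (.n 1 (.l 0) (.l 0))) (.n 2 (.l 1) (.n 1 (.l 0) (.l 0)))) (.n 1 (.n 1 (.l 0) (.l 0)) (.n 1 (.l 0) (.n 0 (.l 0) (.l 0)))))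
    [(6414139392, 917504000), (5497558138880, 1099511627776), (26987823104, 26987823104)] rfl (by decide +kernel)
end

mutual
theorem E1_c0_t6 : CovD 1 gE1 [(6414139392, 917504000), (5497558138880, 1099511627776), (80963469312, 26987823104)] :=
  covD_E kE1_eq (.n 2 (.n 1 (.n 1 (.l 0) (.l 0)) (.n 1 (.l 0) (.l 0))) (.n 1 (.n 1 (.l 0) (.l 0)) (.n 1 (.l 0) (.l 0))))
    [(6414139392, 917504000), (5497558138880, 1099511627776), (80963469312, 26987823104)] rfl (by decide +kernel)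
theorem E1_c0_t7 : CovD 1 gE1 [(6414139392, 917504000), (5497558138880, 1099511627776), (161926938624, 53975646208)] :=
  covD_E kE1_eq (.n 1 (.n 1 (.n 2 (.n 0 (.l 0) (.l 0)) (.l 0)) (.n 2 (.n 0 (.l 0) (.l 0)) (.l 0))) (.n 1 (.n 2 (.n 0 (.l 0) (.l 0)) (.l 0)) (.n 0 (.n 2 (.l 0) (.l 0)) (.n 2 (.l 0) (.l 0)))))
    [(6414139392, 917504000), (5497558138880, 1099511627776), (161926938624, 53975646208)] rfl (by decide +kernel)
end

mutual
theorem E1_c0_t9 : CovD 1 gE1 [(6414139392, 917504000), (5497558138880, 1099511627776), (269878231040, 53975646208)] :=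
  covD_E kE1_eq (.n 2 (.n 1 (.n 1 (.l 0) (.l 0)) (.n 1 (.l 0) (.n 0 (.l 0) (.l 0)))) (.n 1 (.n 1 (.l 0) (.l 0)) (.n 1 (.l 0) (.l 0))))
    [(6414139392, 917504000), (5497558138880, 1099511627776), (269878231040, 53975646208)] rfl (by decide +kernel)
theorem E1_c0_t10 : CovD 1 gE1 [(6414139392, 917504000), (5497558138880, 1099511627776), (377829523456, 53975646208)] :=
  covD_E kE1_eq (.n 2 (.n 1 (.n 1 (.l 0) (.l 0)) (.n 1 (.l 0) (.l 0))) (.n 1 (.n 1 (.l 0) (.l 0)) (.n 1 (.l 0) (.l 0))))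
    [(6414139392, 917504000), (5497558138880, 1099511627776), (377829523456, 53975646208)] rfl (by decide +kernel)
end

mutual
theorem E1_c0_t12 : CovD 1 gE1 [(6414139392, 917504000), (5497558138880, 1099511627776), (539756462080, 107951292416)] :=
  covD_E kE1_eq (.n 2 (.n 2 (.n 1 (.n 1 (.l 0) (.l 0)) (.n 1 (.l 0) (.l 0))) (.n 1 (.n 1 (.l 0) (.l 0)) (.n 1 (.l 0) (.l 0)))) (.n 1 (.n 1 (.l 0) (.n 0 (.l 0) (.l 0))) (.n 0 (.n 1 (.l 0) (.l 0)) (.n 1 (.l 0) (.l 0)))))
    [(6414139392, 917504000), (5497558138880, 1099511627776), (539756462080, 107951292416)] rfl (by decide +kernel)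
theorem E1_c0_t13 : CovD 1 gE1 [(6414139392, 917504000), (5497558138880, 1099511627776), (755659046912, 107951292416)] :=
  covD_E kE1_eq (.n 2 (.n 1 (.n 1 (.l 0) (.l 0)) (.n 0 (.n 1 (.l 0) (.l 0)) (.n 1 (.l 0) (.l 0)))) (.n 1 (.n 1 (.l 0) (.l 0)) (.n 0 (.n 1 (.l 0) (.l 0)) (.n 1 (.l 0) (.l 0)))))
    [(6414139392, 917504000), (5497558138880, 1099511627776), (755659046912, 107951292416)] rfl (by decide +kernel)
end

mutual
theorem E1_c0_t16 : CovD 1 gE1 [(6414139392, 917504000), (5497558138880, 1099511627776), (971561631744, 107951292416)] :=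
  covD_E kE1_eq (.n 2 (.n 1 (.n 1 (.l 0) (.l 0)) (.n 0 (.n 1 (.l 0) (.l 0)) (.n 1 (.l 0) (.l 0)))) (.n 1 (.n 1 (.l 0) (.l 0)) (.n 0 (.n 1 (.l 0) (.l 0)) (.n 1 (.l 0) (.l 0)))))
    [(6414139392, 917504000), (5497558138880, 1099511627776), (971561631744, 107951292416)] rfl (by decide +kernel)
theorem E1_c0_t17 : CovD 1 gE1 [(6414139392, 917504000), (5497558138880, 1099511627776), (1187464216576, 107951292416)] :=
  covD_E kE1_eq (.n 2 (.n 1 (.n 1 (.l 0) (.l 0)) (.n 0 (.n 1 (.l 0) (.l 0)) (.n 1 (.l 0) (.l 0)))) (.n 1 (.n 1 (.l 0) (.l 0)) (.n 0 (.n 1 (.l 0) (.l 0)) (.n 1 (.l 0) (.l 0)))))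
    [(6414139392, 917504000), (5497558138880, 1099511627776), (1187464216576, 107951292416)] rfl (by decide +kernel)
end

mutual
theorem E1_c0_t19 : CovD 1 gE1 [(6414139392, 917504000), (5497558138880, 1099511627776), (1403366801408, 107951292416)] :=
  covD_E kE1_eq (.n 2 (.n 1 (.n 1 (.l 0) (.l 0)) (.n 0 (.n 1 (.l 0) (.l 0)) (.n 1 (.l 0) (.l 0)))) (.n 1 (.n 1 (.l 0) (.l 0)) (.n 1 (.l 0) (.n 0 (.l 0) (.l 0)))))
    [(6414139392, 917504000), (5497558138880, 1099511627776), (1403366801408, 107951292416)] rfl (by decide +kernel)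
theorem E1_c0_t20 : CovD 1 gE1 [(6414139392, 917504000), (5497558138880, 1099511627776), (1619269386240, 107951292416)] :=
  covD_E kE1_eq (.n 2 (.n 1 (.n 1 (.l 0) (.l 0)) (.n 1 (.l 0) (.n 0 (.l 0) (.l 0)))) (.n 1 (.n 1 (.l 0) (.l 0)) (.n 1 (.l 0) (.n 0 (.l 0) (.l 0)))))
    [(6414139392, 917504000), (5497558138880, 1099511627776), (1619269386240, 107951292416)] rfl (by decide +kernel)
end

theorem A1_c0_t2 : CovD 1 gA1 [(6414139392, 917504000), (4947802324992, 549755813888), (2199023255552, 2199023255552)] :=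
  covD_split 1 (by decide +kernel) A1_c0_t3 A1_c0_t4

theorem A1_c0_t1 : CovD 1 gA1 [(6414139392, 917504000), (4947802324992, 549755813888), (4398046511104, 4398046511104)] :=
  covD_split 2 (by decide +kernel) A1_c0_t2 A1_c0_t5

theorem A1_c0_t7 : CovD 1 gA1 [(6414139392, 917504000), (6047313952768, 549755813888), (2199023255552, 2199023255552)] :=
  covD_split 1 (by decide +kernel) A1_c0_t8 A1_c0_t9

theorem A1_c0_t6 : CovD 1 gA1 [(6414139392, 917504000), (6047313952768, 549755813888), (4398046511104, 4398046511104)] :=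
  covD_split 2 (by decide +kernel) A1_c0_t7 A1_c0_t10

theorem A1_c0 : CovD 1 gA1 [(6414139392, 917504000), (5497558138880, 1099511627776), (4398046511104, 4398046511104)] :=
  covD_split 1 (by decide +kernel) A1_c0_t1 A1_c0_t6

theorem B1_c0_t4 : CovD 1 gB1 [(6414139392, 917504000), (5497558138880, 1099511627776), (4294967296, 4294967296)] :=
  covD_split 2 (by decide +kernel) B1_c0_t5 B1_c0_t6

theorem B1_c0_t3 : CovD 1 gB1 [(6414139392, 917504000), (5497558138880, 1099511627776), (8589934592, 8589934592)] :=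
  covD_split 2 (by decide +kernel) B1_c0_t4 B1_c0_t7

theorem B1_c0_t2 : CovD 1 gB1 [(6414139392, 917504000), (5497558138880, 1099511627776), (17179869184, 17179869184)] :=
  covD_split 2 (by decide +kernel) B1_c0_t3 B1_c0_t8

theorem B1_c0_t1 : CovD 1 gB1 [(6414139392, 917504000), (5497558138880, 1099511627776), (34359738368, 34359738368)] :=
  covD_split 2 (by decide +kernel) B1_c0_t2 B1_c0_t9

theorem B1_c0 : CovD 1 gB1 [(6414139392, 917504000), (5497558138880, 1099511627776), (68719476736, 68719476736)] :=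
  covD_split 2 (by decide +kernel) B1_c0_t1 B1_c0_t10

theorem D1_c0_t1 : CovD 1 gD1 [(6414139392, 917504000), (5497558138880, 1099511627776), (431805169664, 431805169664)] :=
  covD_split 2 (by decide +kernel) D1_c0_t2 D1_c0_t3

theorem D1_c0_t6 : CovD 1 gD1 [(6414139392, 917504000), (5497558138880, 1099511627776), (1511318093824, 215902584832)] :=
  covD_split 2 (by decide +kernel) D1_c0_t7 D1_c0_t8

theorem D1_c0_t4 : CovD 1 gD1 [(6414139392, 917504000), (5497558138880, 1099511627776), (1295415508992, 431805169664)] :=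
  covD_split 2 (by decide +kernel) D1_c0_t5 D1_c0_t6

theorem D1_c0 : CovD 1 gD1 [(6414139392, 917504000), (5497558138880, 1099511627776), (863610339328, 863610339328)] :=
  covD_split 2 (by decide +kernel) D1_c0_t1 D1_c0_t4

theorem E1_c0_t4 : CovD 1 gE1 [(6414139392, 917504000), (5497558138880, 1099511627776), (53975646208, 53975646208)] :=
  covD_split 2 (by decide +kernel) E1_c0_t5 E1_c0_t6

theorem E1_c0_t3 : CovD 1 gE1 [(6414139392, 917504000), (5497558138880, 1099511627776), (107951292416, 107951292416)] :=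
  covD_split 2 (by decide +kernel) E1_c0_t4 E1_c0_t7

theorem E1_c0_t8 : CovD 1 gE1 [(6414139392, 917504000), (5497558138880, 1099511627776), (323853877248, 107951292416)] :=
  covD_split 2 (by decide +kernel) E1_c0_t9 E1_c0_t10

theorem E1_c0_t2 : CovD 1 gE1 [(6414139392, 917504000), (5497558138880, 1099511627776), (215902584832, 215902584832)] :=
  covD_split 2 (by decide +kernel) E1_c0_t3 E1_c0_t8

theorem E1_c0_t11 : CovD 1 gE1 [(6414139392, 917504000), (5497558138880, 1099511627776), (647707754496, 215902584832)] :=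
  covD_split 2 (by decide +kernel) E1_c0_t12 E1_c0_t13

theorem E1_c0_t1 : CovD 1 gE1 [(6414139392, 917504000), (5497558138880, 1099511627776), (431805169664, 431805169664)] :=
  covD_split 2 (by decide +kernel) E1_c0_t2 E1_c0_t11

theorem E1_c0_t15 : CovD 1 gE1 [(6414139392, 917504000), (5497558138880, 1099511627776), (1079512924160, 215902584832)] :=
  covD_split 2 (by decide +kernel) E1_c0_t16 E1_c0_t17

theorem E1_c0_t18 : CovD 1 gE1 [(6414139392, 917504000), (5497558138880, 1099511627776), (1511318093824, 215902584832)] :=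
  covD_split 2 (by decide +kernel) E1_c0_t19 E1_c0_t20

theorem E1_c0_t14 : CovD 1 gE1 [(6414139392, 917504000), (5497558138880, 1099511627776), (1295415508992, 431805169664)] :=
  covD_split 2 (by decide +kernel) E1_c0_t15 E1_c0_t18

theorem E1_c0 : CovD 1 gE1 [(6414139392, 917504000), (5497558138880, 1099511627776), (863610339328, 863610339328)] :=
  covD_split 2 (by decide +kernel) E1_c0_t1 E1_c0_t14

end Pool.Agent.helper14.NS.Q150f
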