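import Pool.Agent.helper14.NS.Q150f.CZ_0
import Pool.Agent.helper14.NS.Q150f.CN1_0
import Pool.Agent.helper14.NS.Q150f.CN2_0
import Pool.Agent.helper14.NS.Q150f.CN3_0
import Pool.Agent.helper14.NS.Q150f.CN4_0

/-!
Generated: all certificates of the table.
-/

namespace Pool.Agent.helper14.NS.Q150f

open Pool.Agent.helper31.IA (Z)
open Pool.Agent.helper31.IX (Op XOps runX Cov CovD cov_split covD_split)
open Pool.Agent.helper31.IC (TD)
open Pool.Agent.helper63.RG (reloc)
open Pool.Agent.helper63.NF hiding TD
open Pool.Agent.helper4.NS
open Pool.Agent.helper14.CF (xE covD_E)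
open Pool.Agent.helper14.NR (share)

theorem certZ : CovD 1
    [comp (PS0 tab) ρ4 4]
    [(6414139392, 917504000), (5497558138880, 1099511627776), (384802226176, 384802226176)] := by
  rw [← gZ_eq]; exact Z_c0

theorem certT : CovD 1
    [comp (PST tab 769604452352) ρ3 3]
    [(6414139392, 917504000), (5497558138880, 1099511627776)] := by
  rw [← gT_eq]; exact T_c0

theorem certS : CovD 0
    [PSS tab 5]
    [(6414139392, 917504000), (5497558138880, 1099511627776)] := by
  rw [← gS_eq]; exact S_c0

theorem certA1 : CovD 1
    [circ (cA tab 1) (PSm tab 1),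
     altP (cA tab 1) (oCut tab 1)]
    [(6414139392, 917504000), (5497558138880, 1099511627776), (4398046511104, 4398046511104)] := by
  rw [← gA1_eq]; exact A1_c0

theorem certB1 : CovD 1
    [circ (cB tab 1) (PSm tab 1),
     altP (cB tab 1) (oCut tab 1)]
    [(6414139392, 917504000), (5497558138880, 1099511627776), (68719476736, 68719476736)] := by
  rw [← gB1_eq]; exact B1_c0

theorem certD1 : CovD 1
    [circ (cD tab 1) (PSm tab 1),
     comp (oD tab 1) ρ4 4]
    [(6414139392, 917504000), (5497558138880, 1099511627776), (863610339328, 863610339328)] := by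
  rw [← gD1_eq]; exact D1_c0

theorem certE1 : CovD 1
    [circ (cE tab 1) (PSm tab 1),
     comp (oE tab 1) ρ4 4]
    [(6414139392, 917504000), (5497558138880, 1099511627776), (863610339328, 863610339328)] := by
  rw [← gE1_eq]; exact E1_c0

theorem certA2 : CovD 1
    [circ (cA tab 2) (PSm tab 2),
     altP (cA tab 2) (oCut tab 2)]
    [(6414139392, 917504000), (5497558138880, 1099511627776), (4398046511104, 4398046511104)] := by
  rw [← gA2_eq]; exact A2_c0

theorem certB2 : CovD 1
    [circ (cB tab 2) (PSm tab 2),
     altP (cB tab 2) (oCut tab 2)]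
    [(6414139392, 917504000), (5497558138880, 1099511627776), (68719476736, 68719476736)] := by
  rw [← gB2_eq]; exact B2_c0

theorem certD2 : CovD 1
    [circ (cD tab 2) (PSm tab 2),
     comp (oD tab 2) ρ4 4]
    [(6414139392, 917504000), (5497558138880, 1099511627776), (863610339328, 863610339328)] := by
  rw [← gD2_eq]; exact D2_c0

theorem certE2 : CovD 1
    [circ (cE tab 2) (PSm tab 2),
     comp (oE tab 2) ρ4 4]
    [(6414139392, 917504000), (5497558138880, 1099511627776), (863610339328, 863610339328)] := by
  rw [← gE2_eq]; exact E2_c0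

theorem certA3 : CovD 1
    [circ (cA tab 3) (PSm tab 3),
     altP (cA tab 3) (oCut tab 3)]
    [(6414139392, 917504000), (5497558138880, 1099511627776), (4398046511104, 4398046511104)] := by
  rw [← gA3_eq]; exact A3_c0

theorem certB3 : CovD 1
    [circ (cB tab 3) (PSm tab 3),
     altP (cB tab 3) (oCut tab 3)]
    [(6414139392, 917504000), (5497558138880, 1099511627776), (68719476736, 68719476736)] := by
  rw [← gB3_eq]; exact B3_c0

theorem certD3 : CovD 1
    [circ (cD tab 3) (PSm tab 3),
     comp (oD tab 3) ρ4 4]
    [(6414139392, 917504000), (5497558138880, 1099511627776), (863610339328, 863610339328)] := by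
  rw [← gD3_eq]; exact D3_c0

theorem certE3 : CovD 1
    [circ (cE tab 3) (PSm tab 3),
     comp (oE tab 3) ρ4 4]
    [(6414139392, 917504000), (5497558138880, 1099511627776), (863610339328, 863610339328)] := by
  rw [← gE3_eq]; exact E3_c0

theorem certA4 : CovD 1
    [circ (cA tab 4) (PSl tab 4),
     altP (cA tab 4) (oCut tab 4)]
    [(6414139392, 917504000), (5497558138880, 1099511627776), (4398046511104, 4398046511104)] := by
  rw [← gA4_eq]; exact A4_c0

theorem certB4 : CovD 1
    [circ (cB tab 4) (PSl tab 4),
     altP (cB tab 4) (oCut tab 4)]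
    [(6414139392, 917504000), (5497558138880, 1099511627776), (68719476736, 68719476736)] := by
  rw [← gB4_eq]; exact B4_c0

theorem certD4 : CovD 1
    [circ (cD tab 4) (PSl tab 4),
     comp (oD tab 4) ρ4 4]
    [(6414139392, 917504000), (5497558138880, 1099511627776), (863610339328, 863610339328)] := by
  rw [← gD4_eq]; exact D4_c0

theorem certE4 : CovD 1
    [circ (cE tab 4) (PSl tab 4),
     comp (oE tab 4) ρ4 4]
    [(6414139392, 917504000), (5497558138880, 1099511627776), (863610339328, 863610339328)] := by
  rw [← gE4_eq]; exact E4_c0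

/-- the certificates of the piece -/
theorem certs : CertsS tab 5 769604452352 (6414139392, 917504000) (5497558138880, 1099511627776) (4398046511104, 4398046511104) (68719476736, 68719476736) (0, 0) (863610339328, 863610339328) (384802226176, 384802226176) where
  A := by
    intro n h1 h2
    match n, h1, h2 with
    | 1, _, _ => exact certA1
    | 2, _, _ => exact certA2
    | 3, _, _ => exact certA3
    | 4, _, _ => exact certA4
    | 0, h, _ => exact absurd h (by decide)
    | n + 5, _, h => exact absurd h (by omega)
  B := by
    intro n h1 h2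
    match n, h1, h2 with
    | 1, _, _ => exact certB1
    | 2, _, _ => exact certB2
    | 3, _, _ => exact certB3
    | 4, _, _ => exact certB4
    | 0, h, _ => exact absurd h (by decide)
    | n + 5, _, h => exact absurd h (by omega)
  C := fun h => absurd h (by decide)
  D := by
    intro n h1 h2
    match n, h1, h2 with
    | 1, _, _ => exact certD1
    | 2, _, _ => exact certD2
    | 3, _, _ => exact certD3
    | 4, _, _ => exact certD4
    | 0, h, _ => exact absurd h (by decide)
    | n + 5, _, h => exact absurd h (by omega)
  E := by
    intro n h1 h2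
    match n, h1, h2 with
    | 1, _, _ => exact certE1
    | 2, _, _ => exact certE2
    | 3, _, _ => exact certE3
    | 4, _, _ => exact certE4
    | 0, h, _ => exact absurd h (by decide)
    | n + 5, _, h => exact absurd h (by omega)
  Z := certZ
  T := certT
  S := certS

end Pool.Agent.helper14.NS.Q150f
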