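import Pool.Agent.helper14.NS.Q150f.PZ

/-!
Generated: certificates.
-/

namespace Pool.Agent.helper14.NS.Q150f

open Pool.Agent.helper31.IA (Z)
open Pool.Agent.helper31.IX (Op XOps runX Cov CovD cov_split covD_split)
open Pool.Agent.helper31.IC (TD)
open Pool.Agent.helper63.RG (reloc)
open Pool.Agent.helper63.NF hiding TD
open Pool.Agent.helper4.NS
open Pool.Agent.helper14.CF (xE covD_E)
open Pool.Agent.helper14.NR (share)

mutual
theorem Z_c0_t3 : CovD 1 gZ [(6414139392, 917504000), (4535485464576, 137438953472), (384802226176, 384802226176)] :=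
  covD_E kZ_eq (.n 1 (.n 2 (.n 2 (.l 0) (.n 0 (.l 0) (.l 0))) (.n 2 (.n 2 (.l 0) (.l 0)) (.n 1 (.n 2 (.l 0) (.l 0)) (.n 0 (.l 0) (.l 0))))) (.n 2 (.n 2 (.l 0) (.l 0)) (.n 2 (.l 0) (.n 0 (.l 0) (.l 0)))))
    [(6414139392, 917504000), (4535485464576, 137438953472), (384802226176, 384802226176)] rfl (by decide +kernel)
theorem Z_c0_t4 : CovD 1 gZ [(6414139392, 917504000), (4810363371520, 137438953472), (384802226176, 384802226176)] :=
  covD_E kZ_eq (.n 2 (.n 2 (.l 0) (.l 0)) (.n 2 (.l 0) (.n 0 (.l 0) (.l 0))))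
    [(6414139392, 917504000), (4810363371520, 137438953472), (384802226176, 384802226176)] rfl (by decide +kernel)
end

mutual
theorem Z_c0_t5 : CovD 1 gZ [(6414139392, 917504000), (5222680231936, 274877906944), (384802226176, 384802226176)] :=
  covD_E kZ_eq (.n 1 (.n 2 (.n 2 (.l 0) (.l 0)) (.n 2 (.l 0) (.l 0))) (.n 2 (.n 2 (.l 0) (.l 0)) (.n 2 (.l 0) (.l 0))))
    [(6414139392, 917504000), (5222680231936, 274877906944), (384802226176, 384802226176)] rfl (by decide +kernel)
theorem Z_c0_t7 : CovD 1 gZ [(6414139392, 917504000), (5772436045824, 274877906944), (384802226176, 384802226176)] :=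
  covD_E kZ_eq (.n 2 (.n 2 (.l 0) (.n 1 (.l 0) (.l 0))) (.n 1 (.n 2 (.l 0) (.l 0)) (.n 2 (.l 0) (.l 0))))
    [(6414139392, 917504000), (5772436045824, 274877906944), (384802226176, 384802226176)] rfl (by decide +kernel)
end

mutual
theorem Z_c0_t8 : CovD 1 gZ [(6414139392, 917504000), (6322191859712, 274877906944), (384802226176, 384802226176)] :=
  covD_E kZ_eq (.n 1 (.n 2 (.n 2 (.l 0) (.l 0)) (.n 2 (.l 0) (.l 0))) (.n 2 (.n 2 (.l 0) (.n 0 (.l 0) (.l 0))) (.n 1 (.n 2 (.l 0) (.l 0)) (.n 1 (.n 2 (.l 0) (.l 0)) (.n 2 (.l 0) (.l 0))))))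
    [(6414139392, 917504000), (6322191859712, 274877906944), (384802226176, 384802226176)] rfl (by decide +kernel)
theorem T_c0 : CovD 1 gT [(6414139392, 917504000), (5497558138880, 1099511627776)] :=
  covD_E kT_eq (.n 1 (.n 1 (.l 0) (.n 1 (.l 0) (.l 0))) (.n 1 (.n 1 (.l 0) (.l 0)) (.l 0)))
    [(6414139392, 917504000), (5497558138880, 1099511627776)] rfl (by decide +kernel)
end

theorem S_c0 : CovD 0 gS [(6414139392, 917504000), (5497558138880, 1099511627776)] :=
  covD_E kS_eq (.l 0)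
    [(6414139392, 917504000), (5497558138880, 1099511627776)] rfl (by decide +kernel)

theorem Z_c0_t2 : CovD 1 gZ [(6414139392, 917504000), (4672924418048, 274877906944), (384802226176, 384802226176)] :=
  covD_split 1 (by decide +kernel) Z_c0_t3 Z_c0_t4

theorem Z_c0_t1 : CovD 1 gZ [(6414139392, 917504000), (4947802324992, 549755813888), (384802226176, 384802226176)] :=
  covD_split 1 (by decide +kernel) Z_c0_t2 Z_c0_t5

theorem Z_c0_t6 : CovD 1 gZ [(6414139392, 917504000), (6047313952768, 549755813888), (384802226176, 384802226176)] :=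
  covD_split 1 (by decide +kernel) Z_c0_t7 Z_c0_t8

theorem Z_c0 : CovD 1 gZ [(6414139392, 917504000), (5497558138880, 1099511627776), (384802226176, 384802226176)] :=
  covD_split 1 (by decide +kernel) Z_c0_t1 Z_c0_t6

end Pool.Agent.helper14.NS.Q150f
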