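import Pool.Agent.helper14.NS.Q150f.Tab
import Pool.Agent.helper14.NR.Share

/-!
Generated: programs and compiled forms.
-/

namespace Pool.Agent.helper14.NS.Q150f

open Pool.Agent.helper31.IA (Z)
open Pool.Agent.helper31.IX (Op XOps runX Cov CovD cov_split covD_split)
open Pool.Agent.helper31.IC (TD)
open Pool.Agent.helper63.RG (reloc)
open Pool.Agent.helper63.NF hiding TD
open Pool.Agent.helper4.NS
open Pool.Agent.helper14.CF (xE covD_E)
open Pool.Agent.helper14.NR (share)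

def p_Z_0 : List Op := [
  .const ⟨1099511627776, 0, 0, 0⟩,
  .mul 1 2,
  .scale ⟨2199023255552, 0, 0, 0⟩ 0,
  .exp 1,
  .neg 2,
  .exp 0,
  .mul 2 2,
  .mul 1 1,
  .mul 0 0,
  .add 2 1,
  .scale ⟨549755813888, 0, 0, 0⟩ 0,
  .scale ⟨2199023255552, 0, 0, 0⟩ 12,
  .mul 10 10,
  .lt 0 68719476736,
  .scale ⟨9162596898, 0, 0, 0⟩ 0,
  .const ⟨183251937962, 0, 0, 0⟩,
  .add 1 0,
  .mul 0 3,
  .const ⟨1099511627776, 0, 0, 0⟩,
  .add 1 0,
  .const ⟨65536, 0, 0, 0⟩,
  .rball 1 0,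
  .mul 9 0,
  .add 18 16,
  .scale ⟨549755813888, 0, 0, 0⟩ 0,
  .mul 2 0,
  .mul 3 3,
  .mul 26 0,
  .mul 2 2,
  .mul 28 0,
  .neg 17,
  .exp 0,
  .add 0 30,
  .pos 0,
  .log 0,
  .const ⟨6408896512, 0, 0, 0⟩,
  .sub 34 0,
  .const ⟨5497558138880, 0, 0, 0⟩,
  .sub 37 0,
  .mul 0 0,
  .mul 0 1,
  .mul 0 2,
  .mul 0 3,
  .mul 6 4,
  .mul 7 4,
  .mul 8 8,
  .scale ⟨3378543808, 0, 0, 0⟩ 7,
  .scale ⟨0, 29380544, 0, 0⟩ 7,
  .add 1 0,
  .scale ⟨0, 134105984, 0, 0⟩ 8,
  .add 1 0,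
  .scale ⟨2470964835584, 0, 0, 0⟩ 14,
  .add 1 0,
  .scale ⟨0, 11423655424, 0, 0⟩ 9,
  .add 1 0,
  .scale ⟨0, 4864408137664, 0, 0⟩ 9,
  .add 1 0,
  .const ⟨554453512448, 0, 0, 0⟩,
  .add 1 0,
  .scale ⟨0, 233645440, 0, 0⟩ 20,
  .scale ⟨20138752, 0, 0, 0⟩ 20,
  .add 1 0,
  .scale ⟨0, 94729845696, 0, 0⟩ 25,
  .add 1 0,
  .const ⟨435135936, 0, 0, 0⟩,
  .add 1 0,
  .scale ⟨5708864, 0, 0, 0⟩ 27,
  .scale ⟨1228264576, 0, 0, 0⟩ 30,
  .add 1 0,
  .const ⟨0, 51373696, 0, 0⟩,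
  .add 1 0,
  .scale ⟨0, 0, 1099511627776, 0⟩ 71,
  .scale ⟨549755813888, 0, 0, 0⟩ 0,
  .add 0 70,
  .inv 0,
  .mul 3 0,
  .scale ⟨0, 421567106560, 0, 0⟩ 0,
  .const ⟨690025783296, 0, 0, 0⟩,
  .add 1 0,
  .mul 3 0,
  .scale ⟨370087201344, 0, 0, 0⟩ 41,
  .const ⟨0, 484765457920, 0, 0⟩,
  .add 1 0,
  .add 3 0,
  .mul 8 0,
  .scale ⟨0, 170529028544, 0, 0⟩ 46,
  .const ⟨294418687552, 0, 0, 0⟩,
  .add 1 0,
  .add 3 0,
  .mul 13 0,
  .scale ⟨0, 96119200768, 0, 0⟩ 51,
  .scale ⟨0, 139386711232, 0, 0⟩ 51,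
  .add 1 0,
  .scale ⟨0, 98745691646912, 0, 0⟩ 56,
  .add 1 0,
  .const ⟨848071330752, 0, 0, 0⟩,
  .add 1 0,
  .add 7 0,
  .mul 22 0,
  .scale ⟨431615968256, 0, 0, 0⟩ 60,
  .scale ⟨44158202240, 0, 0, 0⟩ 60,
  .add 1 0,
  .scale ⟨0, 65216551808, 0, 0⟩ 61,
  .add 1 0,
  .scale ⟨120366218173888, 0, 0, 0⟩ 67,
  .add 1 0,
  .const ⟨484119696384, 0, 0, 0⟩,
  .add 1 0,
  .add 9 0,
  .mul 33 0,
  .scale ⟨0, 331819290304, 0, 0⟩ 71,
  .scale ⟨43842616768, 0, 0, 0⟩ 71,
  .add 1 0,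
  .scale ⟨50575453184, 0, 0, 0⟩ 72,
  .add 1 0,
  .scale ⟨0, 109254481605312, 0, 0⟩ 78,
  .add 1 0,
  .scale ⟨43932383625344, 0, 0, 0⟩ 73,
  .add 1 0,
  .const ⟨1274162593984, 0, 0, 0⟩,
  .add 1 0,
  .add 11 0,
  .mul 46 0,
  .scale ⟨98246344320, 0, 0, 0⟩ 84,
  .scale ⟨914365962752, 0, 0, 0⟩ 84,
  .add 1 0,
  .scale ⟨0, 15022982720, 0, 0⟩ 85,
  .add 1 0,
  .scale ⟨0, 775846520832, 0, 0⟩ 86,
  .add 1 0,
  .scale ⟨16880281554432, 0, 0, 0⟩ 93,
  .add 1 0,
  .scale ⟨0, 45680187011200, 0, 0⟩ 88,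
  .add 1 0,
  .const ⟨3678175585536, 0, 0, 0⟩,
  .add 1 0,
  .add 13 0,
  .mul 61 0,
  .scale ⟨37036760640, 0, 0, 0⟩ 99,
  .scale ⟨36531803072, 0, 0, 0⟩ 99,
  .add 1 0,
  .scale ⟨5791161856, 0, 0, 0⟩ 100,
  .add 1 0,
  .scale ⟨0, 27261680192, 0, 0⟩ 101,
  .add 1 0,
  .scale ⟨0, 4922424448, 0, 0⟩ 102,
  .add 1 0,
  .scale ⟨28224434470912, 0, 0, 0⟩ 110,
  .add 1 0,
  .scale ⟨8220046355904, 0, 0, 0⟩ 105,
  .add 1 0,
  .scale ⟨0, 26840849856, 0, 0⟩ 106,
  .add 1 0,
  .scale ⟨126688979366208, 0, 0, 0⟩ 107,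
  .add 1 0,
  .const ⟨138125513792, 0, 0, 0⟩,
  .add 1 0,
  .mul 0 156,
  .add 20 0,
  .mul 157 157,
  .scale ⟨5703716569088, 0, 0, 0⟩ 0,
  .const ⟨1726576852992, 0, 0, 0⟩,
  .add 1 0,
  .scale ⟨4398046511104, 0, 0, 0⟩ 162,
  .mul 88 1,
  .scale ⟨4398046511104, 0, 0, 0⟩ 0,
  .add 2 0,
  .scale ⟨0, 15834284032, 0, 0⟩ 128,
  .scale ⟨0, 274313183232, 0, 0⟩ 128,
  .add 1 0,
  .scale ⟨21763784704, 0, 0, 0⟩ 129,
  .add 1 0,
  .scale ⟨11711488917504, 0, 0, 0⟩ 135,
  .add 1 0,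
  .scale ⟨6297317277696, 0, 0, 0⟩ 130,
  .add 1 0,
  .const ⟨408679088128, 0, 0, 0⟩,
  .add 1 0,
  .scale ⟨12369505812480, 0, 0, 0⟩ 173,
  .neg 0,
  .exp 0,
  .mul 3 0,
  .mul 0 15,
  .scale ⟨439697276928, 0, 0, 0⟩ 16,
  .add 0 181,
  .pos 0,
  .inv 0,
  .mul 3 0,
  .neg 28,
  .exp 0,
  .add 0 186,
  .pos 0,
  .log 0,
  .mul 4 192,
  .sub 189 0,
  .pos 0,
  .log 0,
  .mul 5 2,
  .add 0 192,
  .pos 0,
  .log 0,
  .sub 6 0,
  .add 197 163,
  .sub 1 0,
  .mul 0 198,
  .exp 0,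
  .sub 5 8,
  .add 0 44,
  .mul 0 202,
  .exp 0,
  .mul 182 182,
  .scale ⟨274877906944, 0, 0, 0⟩ 0,
  .mul 48 0,
  .scale ⟨1649267441664, 0, 0, 0⟩ 0,
  .add 0 207,
  .mul 48 0,
  .mul 212 0,
  .scale ⟨0, 0, 1099511627776, 0⟩ 0,
  .mul 0 0,
  .sub 7 0,
  .mul 14 14,
  .mul 0 1,
  .mul 58 0,
  .scale ⟨4398046511104, 0, 0, 0⟩ 0,
  .sub 217 0,
  .pos 0,
  .log 0,
  .scale ⟨549755813888, 0, 0, 0⟩ 0,
  .exp 0,
  .mul 222 7,
  .mul 17 19,
  .scale ⟨2199023255552, 0, 0, 0⟩ 10,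
  .add 1 0,
  .mul 3 0,
  .mul 15 5,
  .mul 28 0,
  .add 2 0,
  .mul 26 0,
  .scale ⟨4398046511104, 0, 0, 0⟩ 0,
  .mul 232 0,
  .add 0 232,
  .pos 0,
  .log 0,
  .scale ⟨549755813888, 0, 0, 0⟩ 0,
  .exp 0,
  .add 0 236,
  .pos 0,
  .inv 0,
  .mul 7 0,
  .scale ⟨549755813888, 0, 0, 0⟩ 213,
  .sub 1 0,
  .const ⟨9525163720704, 0, 0, 0⟩,
  .add 215 0,
  .pos 0,
  .mul 2 2,
  .sub 0 217,
  .inv 2,
  .mul 1 0,
  .lt 0 1099510579200,
  .mul 248 48,
  .mul 0 37,
  .scale ⟨2199023255552, 0, 0, 0⟩ 0,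
  .sub 29 0,
  .pos 0,
  .add 248 246,
  .mul 41 0,
  .mul 254 0,
  .add 0 244,
  .pos 0,
  .inv 0,
  .mul 246 3,
  .add 0 229,
  .mul 2 0,
  .pos 260,
  .inv 260,
  .sub 19 1,
  .mul 0 1,
  .add 9 238,
  .mul 256 8,
  .inv 1,
  .mul 1 0,
  .mul 0 4,
  .mul 268 0,
  .add 0 268,
  .scale ⟨0, 67338764288, 0, 0⟩ 233,
  .scale ⟨0, 14467006464, 0, 0⟩ 233,
  .add 1 0,
  .scale ⟨22926327808, 0, 0, 0⟩ 234,
  .add 1 0,
  .scale ⟨24561471389696, 0, 0, 0⟩ 240,
  .add 1 0,
  .scale ⟨14716567552000, 0, 0, 0⟩ 235,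
  .add 1 0,
  .const ⟨594412175360, 0, 0, 0⟩,
  .add 1 0,
  .scale ⟨2199023255552, 0, 0, 0⟩ 13,
  .inv 12,
  .mul 16 0,
  .mul 2 0,
  .mul 278 278,
  .inv 5,
  .mul 1 0,
  .mul 3 0,
  .lt 0 1099510579200,
  .mul 289 47,
  .add 0 279,
  .pos 0,
  .inv 0,
  .mul 284 0,
  .sub 51 268,
  .add 286 2,
  .mul 1 0,
  .mul 3 0,
  .mul 289 272,
  .scale ⟨2199023255552, 0, 0, 0⟩ 0,
  .add 2 0,
  .scale ⟨0, 277523606798336, 0, 0⟩ 265,
  .const ⟨0, 3235452551168, 0, 0⟩,
  .add 1 0,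
  .sub 3 0,
  .pos 0,
  .inv 0,
  .scale ⟨31362867265536, 0, 0, 0⟩ 0,
  .add 2 0,
  .pos 0,
  .inv 0,
  .scale ⟨0, 13312983040, 0, 0⟩ 271,
  .scale ⟨0, 29265151899520, 0, 0⟩ 274,
  .add 1 0,
  .const ⟨0, 125864585088, 0, 0⟩,
  .add 1 0,
  .scale ⟨0, 90825542464, 0, 0⟩ 276,
  .scale ⟨93836166731264, 0, 0, 0⟩ 279,
  .add 1 0,
  .const ⟨649430117824, 0, 0, 0⟩,
  .add 1 0,
  .mul 13 0,
  .add 6 0,
  .mul 0 12,
  .scale ⟨0, 26048, 0, 0⟩ 21,
  .const ⟨1879296, 0, 0, 0⟩,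
  .add 1 0,
  .mul 24 0,
  .add 0 256,
  .mul 26 0,
  .add 0 263,
  .mul 28 0,
  .add 8 272,
  .add 1 0,
  .mul 34 0,
  .add 0 320,
  .neg 0,
  .exp 0,
  .add 0 334,
  .pos 0,
  .log 0,
  .add 180 148,
  .sub 0 1,
  .scale ⟨549755813888, 0, 0, 0⟩ 104,
  .mul 0 79,
  .sub 2 0,
  .exp 0,
  .scale ⟨12628983808, 0, 0, 0⟩ 269,
  .const ⟨0, 4040753152, 0, 0⟩,
  .add 1 0,
  .mul 272 0,
  .const ⟨4890689536, 0, 0, 0⟩,
  .add 1 0,
  .mul 275 0,
  .scale ⟨0, 6355484672, 0, 0⟩ 313,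
  .scale ⟨0, 722764103680, 0, 0⟩ 316,
  .add 1 0,
  .const ⟨11289034752, 0, 0, 0⟩,
  .add 1 0,
  .add 5 0,
  .mul 282 0,
  .scale ⟨1307574272, 0, 0, 0⟩ 320,
  .scale ⟨4121237127168, 0, 0, 0⟩ 323,
  .add 1 0,
  .const ⟨24370348032, 0, 0, 0⟩,
  .add 1 0,
  .add 5 0,
  .mul 289 0,
  .scale ⟨2553348096, 0, 0, 0⟩ 327,
  .scale ⟨0, 2834169856, 0, 0⟩ 327,
  .add 1 0,
  .scale ⟨1812146946048, 0, 0, 0⟩ 332,
  .add 1 0,
  .scale ⟨1180713811968, 0, 0, 0⟩ 327,
  .add 1 0,
  .scale ⟨220035240165376, 0, 0, 0⟩ 327,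
  .add 1 0,
  .const ⟨1105153622016, 0, 0, 0⟩,
  .add 1 0,
  .add 11 0,
  .inv 195,
  .mul 0 194,
  .scale ⟨329907175424, 0, 0, 0⟩ 136,
  .add 0 378,
  .pos 0,
  .scale ⟨285802496, 0, 0, 0⟩ 343,
  .scale ⟨335413248, 0, 0, 0⟩ 343,
  .add 1 0,
  .scale ⟨0, 324206592, 0, 0⟩ 344,
  .add 1 0,
  .scale ⟨43191959552, 0, 0, 0⟩ 350,
  .add 1 0,
  .scale ⟨488599977984, 0, 0, 0⟩ 345,
  .add 1 0,
  .const ⟨9224060928, 0, 0, 0⟩,
  .add 1 0,
  .scale ⟨3435973836800, 0, 0, 0⟩ 388,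
  .neg 0,
  .exp 0,
  .mul 3 0,
  .scale ⟨2199023255552, 0, 0, 0⟩ 0,
  .add 154 371,
  .mul 1 0,
  .inv 18,
  .mul 1 0,
  .const ⟨0, 0, 0, 0⟩,
  .mul 25 58,
  .mul 0 67,
  .mul 3 25,
  .mul 1 0,
  .rball 4 0,
  .sub 405 30,
  .mul 410 0,
  .sub 407 65,
  .mul 0 31,
  .mul 34 0,
  .add 3 0,
  .add 0 6,
  .lt 0 1099510579200]

set_option maxRecDepth 1000000 in
noncomputable def c_Z_0 {α : Type} (cst : Z → α) (add sub mul : α → α → α) (scale : Z → α → α)
    (neg inv exp log : α → α) (ok : α → Bool) (isPos : Nat → α → Bool) (isLt : α → Nat → Bool)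
    (ball : Nat → α → α) (rball : α → α → α) : List α → Bool
  | [x0, x1, x2, x3] =>
  let v0 := cst ⟨1099511627776, 0, 0, 0⟩; ok v0 && (
  let v1 := mul x0 x1; ok v1 && (
  let v2 := scale ⟨2199023255552, 0, 0, 0⟩ v1; ok v2 && (
  let v3 := exp v1; ok v3 && (
  let v4 := neg v1; ok v4 && (
  let v5 := exp v4; ok v5 && (
  let v6 := mul v3 v3; ok v6 && (
  let v7 := mul v5 v5; ok v7 && (
  let v8 := mul v7 v7; ok v8 && (
  let v9 := add v6 v7; ok v9 && (
  let v10 := scale ⟨549755813888, 0, 0, 0⟩ v9; ok v10 && (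
  let v11 := scale ⟨2199023255552, 0, 0, 0⟩ x1; ok v11 && (
  let v12 := mul v1 v1; ok v12 && (
  isLt v12 68719476736 && (
  let v13 := scale ⟨9162596898, 0, 0, 0⟩ v12; ok v13 && (
  let v14 := cst ⟨183251937962, 0, 0, 0⟩; ok v14 && (
  let v15 := add v13 v14; ok v15 && (
  let v16 := mul v15 v12; ok v16 && (
  let v17 := cst ⟨1099511627776, 0, 0, 0⟩; ok v17 && (
  let v18 := add v16 v17; ok v18 && (
  let v19 := cst ⟨65536, 0, 0, 0⟩; ok v19 && (
  let v20 := rball v18 v19; ok v20 && (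
  let v21 := mul v11 v20; ok v21 && (
  let v22 := add v3 v5; ok v22 && (
  let v23 := scale ⟨549755813888, 0, 0, 0⟩ v22; ok v23 && (
  let v24 := mul v21 v23; ok v24 && (
  let v25 := mul v21 v21; ok v25 && (
  let v26 := mul x0 v25; ok v26 && (
  let v27 := mul v24 v24; ok v27 && (
  let v28 := mul x0 v27; ok v28 && (
  let v29 := neg v11; ok v29 && (
  let v30 := exp v29; ok v30 && (
  let v31 := add v30 v0; ok v31 && (
  isPos 3 v31 && (
  let v32 := log v31; ok v32 && (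
  let v33 := cst ⟨6408896512, 0, 0, 0⟩; ok v33 && (
  let v34 := sub x0 v33; ok v34 && (
  let v35 := cst ⟨5497558138880, 0, 0, 0⟩; ok v35 && (
  let v36 := sub x1 v35; ok v36 && (
  let v37 := mul v36 v36; ok v37 && (
  let v38 := mul v37 v36; ok v38 && (
  let v39 := mul v38 v36; ok v39 && (
  let v40 := mul v39 v36; ok v40 && (
  let v41 := mul v34 v36; ok v41 && (
  let v42 := mul v34 v37; ok v42 && (
  let v43 := mul v34 v34; ok v43 && (
  let v44 := scale ⟨3378543808, 0, 0, 0⟩ v36; ok v44 && (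
  let v45 := scale ⟨0, 29380544, 0, 0⟩ v37; ok v45 && (
  let v46 := add v44 v45; ok v46 && (
  let v47 := scale ⟨0, 134105984, 0, 0⟩ v38; ok v47 && (
  let v48 := add v46 v47; ok v48 && (
  let v49 := scale ⟨2470964835584, 0, 0, 0⟩ v34; ok v49 && (
  let v50 := add v48 v49; ok v50 && (
  let v51 := scale ⟨0, 11423655424, 0, 0⟩ v41; ok v51 && (
  let v52 := add v50 v51; ok v52 && (
  let v53 := scale ⟨0, 4864408137664, 0, 0⟩ v43; ok v53 && (
  let v54 := add v52 v53; ok v54 && (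
  let v55 := cst ⟨554453512448, 0, 0, 0⟩; ok v55 && (
  let v56 := add v54 v55; ok v56 && (
  let v57 := scale ⟨0, 233645440, 0, 0⟩ v36; ok v57 && (
  let v58 := scale ⟨20138752, 0, 0, 0⟩ v37; ok v58 && (
  let v59 := add v57 v58; ok v59 && (
  let v60 := scale ⟨0, 94729845696, 0, 0⟩ v34; ok v60 && (
  let v61 := add v59 v60; ok v61 && (
  let v62 := cst ⟨435135936, 0, 0, 0⟩; ok v62 && (
  let v63 := add v61 v62; ok v63 && (
  let v64 := scale ⟨5708864, 0, 0, 0⟩ v36; ok v64 && (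
  let v65 := scale ⟨1228264576, 0, 0, 0⟩ v34; ok v65 && (
  let v66 := add v64 v65; ok v66 && (
  let v67 := cst ⟨0, 51373696, 0, 0⟩; ok v67 && (
  let v68 := add v66 v67; ok v68 && (
  let v69 := scale ⟨0, 0, 1099511627776, 0⟩ x2; ok v69 && (
  let v70 := scale ⟨549755813888, 0, 0, 0⟩ v69; ok v70 && (
  let v71 := add v70 v0; ok v71 && (
  let v72 := inv v71; ok v72 && (
  let v73 := mul v69 v72; ok v73 && (
  let v74 := scale ⟨0, 421567106560, 0, 0⟩ v73; ok v74 && (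
  let v75 := cst ⟨690025783296, 0, 0, 0⟩; ok v75 && (
  let v76 := add v74 v75; ok v76 && (
  let v77 := mul v73 v76; ok v77 && (
  let v78 := scale ⟨370087201344, 0, 0, 0⟩ v36; ok v78 && (
  let v79 := cst ⟨0, 484765457920, 0, 0⟩; ok v79 && (
  let v80 := add v78 v79; ok v80 && (
  let v81 := add v77 v80; ok v81 && (
  let v82 := mul v73 v81; ok v82 && (
  let v83 := scale ⟨0, 170529028544, 0, 0⟩ v36; ok v83 && (
  let v84 := cst ⟨294418687552, 0, 0, 0⟩; ok v84 && (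
  let v85 := add v83 v84; ok v85 && (
  let v86 := add v82 v85; ok v86 && (
  let v87 := mul v73 v86; ok v87 && (
  let v88 := scale ⟨0, 96119200768, 0, 0⟩ v36; ok v88 && (
  let v89 := scale ⟨0, 139386711232, 0, 0⟩ v37; ok v89 && (
  let v90 := add v88 v89; ok v90 && (
  let v91 := scale ⟨0, 98745691646912, 0, 0⟩ v34; ok v91 && (
  let v92 := add v90 v91; ok v92 && (
  let v93 := cst ⟨848071330752, 0, 0, 0⟩; ok v93 && (
  let v94 := add v92 v93; ok v94 && (
  let v95 := add v87 v94; ok v95 && (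
  let v96 := mul v73 v95; ok v96 && (
  let v97 := scale ⟨431615968256, 0, 0, 0⟩ v36; ok v97 && (
  let v98 := scale ⟨44158202240, 0, 0, 0⟩ v37; ok v98 && (
  let v99 := add v97 v98; ok v99 && (
  let v100 := scale ⟨0, 65216551808, 0, 0⟩ v38; ok v100 && (
  let v101 := add v99 v100; ok v101 && (
  let v102 := scale ⟨120366218173888, 0, 0, 0⟩ v34; ok v102 && (
  let v103 := add v101 v102; ok v103 && (
  let v104 := cst ⟨484119696384, 0, 0, 0⟩; ok v104 && (
  let v105 := add v103 v104; ok v105 && (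
  let v106 := add v96 v105; ok v106 && (
  let v107 := mul v73 v106; ok v107 && (
  let v108 := scale ⟨0, 331819290304, 0, 0⟩ v36; ok v108 && (
  let v109 := scale ⟨43842616768, 0, 0, 0⟩ v37; ok v109 && (
  let v110 := add v108 v109; ok v110 && (
  let v111 := scale ⟨50575453184, 0, 0, 0⟩ v38; ok v111 && (
  let v112 := add v110 v111; ok v112 && (
  let v113 := scale ⟨0, 109254481605312, 0, 0⟩ v34; ok v113 && (
  let v114 := add v112 v113; ok v114 && (
  let v115 := scale ⟨43932383625344, 0, 0, 0⟩ v41; ok v115 && (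
  let v116 := add v114 v115; ok v116 && (
  let v117 := cst ⟨1274162593984, 0, 0, 0⟩; ok v117 && (
  let v118 := add v116 v117; ok v118 && (
  let v119 := add v107 v118; ok v119 && (
  let v120 := mul v73 v119; ok v120 && (
  let v121 := scale ⟨98246344320, 0, 0, 0⟩ v36; ok v121 && (
  let v122 := scale ⟨914365962752, 0, 0, 0⟩ v37; ok v122 && (
  let v123 := add v121 v122; ok v123 && (
  let v124 := scale ⟨0, 15022982720, 0, 0⟩ v38; ok v124 && (
  let v125 := add v123 v124; ok v125 && (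
  let v126 := scale ⟨0, 775846520832, 0, 0⟩ v39; ok v126 && (
  let v127 := add v125 v126; ok v127 && (
  let v128 := scale ⟨16880281554432, 0, 0, 0⟩ v34; ok v128 && (
  let v129 := add v127 v128; ok v129 && (
  let v130 := scale ⟨0, 45680187011200, 0, 0⟩ v41; ok v130 && (
  let v131 := add v129 v130; ok v131 && (
  let v132 := cst ⟨3678175585536, 0, 0, 0⟩; ok v132 && (
  let v133 := add v131 v132; ok v133 && (
  let v134 := add v120 v133; ok v134 && (
  let v135 := mul v73 v134; ok v135 && (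
  let v136 := scale ⟨37036760640, 0, 0, 0⟩ v36; ok v136 && (
  let v137 := scale ⟨36531803072, 0, 0, 0⟩ v37; ok v137 && (
  let v138 := add v136 v137; ok v138 && (
  let v139 := scale ⟨5791161856, 0, 0, 0⟩ v38; ok v139 && (
  let v140 := add v138 v139; ok v140 && (
  let v141 := scale ⟨0, 27261680192, 0, 0⟩ v39; ok v141 && (
  let v142 := add v140 v141; ok v142 && (
  let v143 := scale ⟨0, 4922424448, 0, 0⟩ v40; ok v143 && (
  let v144 := add v142 v143; ok v144 && (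
  let v145 := scale ⟨28224434470912, 0, 0, 0⟩ v34; ok v145 && (
  let v146 := add v144 v145; ok v146 && (
  let v147 := scale ⟨8220046355904, 0, 0, 0⟩ v41; ok v147 && (
  let v148 := add v146 v147; ok v148 && (
  let v149 := scale ⟨0, 26840849856, 0, 0⟩ v42; ok v149 && (
  let v150 := add v148 v149; ok v150 && (
  let v151 := scale ⟨126688979366208, 0, 0, 0⟩ v43; ok v151 && (
  let v152 := add v150 v151; ok v152 && (
  let v153 := cst ⟨138125513792, 0, 0, 0⟩; ok v153 && (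
  let v154 := add v152 v153; ok v154 && (
  let v155 := mul v154 x1; ok v155 && (
  let v156 := add v135 v155; ok v156 && (
  let v157 := mul x0 x0; ok v157 && (
  let v158 := scale ⟨5703716569088, 0, 0, 0⟩ v157; ok v158 && (
  let v159 := cst ⟨1726576852992, 0, 0, 0⟩; ok v159 && (
  let v160 := add v158 v159; ok v160 && (
  let v161 := scale ⟨4398046511104, 0, 0, 0⟩ x1; ok v161 && (
  let v162 := mul v73 v160; ok v162 && (
  let v163 := scale ⟨4398046511104, 0, 0, 0⟩ v162; ok v163 && (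
  let v164 := add v161 v163; ok v164 && (
  let v165 := scale ⟨0, 15834284032, 0, 0⟩ v36; ok v165 && (
  let v166 := scale ⟨0, 274313183232, 0, 0⟩ v37; ok v166 && (
  let v167 := add v165 v166; ok v167 && (
  let v168 := scale ⟨21763784704, 0, 0, 0⟩ v38; ok v168 && (
  let v169 := add v167 v168; ok v169 && (
  let v170 := scale ⟨11711488917504, 0, 0, 0⟩ v34; ok v170 && (
  let v171 := add v169 v170; ok v171 && (
  let v172 := scale ⟨6297317277696, 0, 0, 0⟩ v41; ok v172 && (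
  let v173 := add v171 v172; ok v173 && (
  let v174 := cst ⟨408679088128, 0, 0, 0⟩; ok v174 && (
  let v175 := add v173 v174; ok v175 && (
  let v176 := scale ⟨12369505812480, 0, 0, 0⟩ v2; ok v176 && (
  let v177 := neg v176; ok v177 && (
  let v178 := exp v177; ok v178 && (
  let v179 := mul v175 v178; ok v179 && (
  let v180 := mul v179 v164; ok v180 && (
  let v181 := scale ⟨439697276928, 0, 0, 0⟩ v164; ok v181 && (
  let v182 := add v181 v0; ok v182 && (
  isPos 3 v182 && (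
  let v183 := inv v182; ok v183 && (
  let v184 := mul v180 v183; ok v184 && (
  let v185 := neg v156; ok v185 && (
  let v186 := exp v185; ok v186 && (
  let v187 := add v186 v0; ok v187 && (
  isPos 3 v187 && (
  let v188 := log v187; ok v188 && (
  let v189 := mul v184 x3; ok v189 && (
  let v190 := sub v0 v189; ok v190 && (
  isPos 3 v190 && (
  let v191 := log v190; ok v191 && (
  let v192 := mul v186 v189; ok v192 && (
  let v193 := add v192 v0; ok v193 && (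
  isPos 3 v193 && (
  let v194 := log v193; ok v194 && (
  let v195 := sub v188 v194; ok v195 && (
  let v196 := add x1 v32; ok v196 && (
  let v197 := sub v195 v196; ok v197 && (
  let v198 := mul v197 x0; ok v198 && (
  let v199 := exp v198; ok v199 && (
  let v200 := sub v194 v191; ok v200 && (
  let v201 := add v200 v156; ok v201 && (
  let v202 := mul v201 x0; ok v202 && (
  let v203 := exp v202; ok v203 && (
  let v204 := mul v21 v21; ok v204 && (
  let v205 := scale ⟨274877906944, 0, 0, 0⟩ v204; ok v205 && (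
  let v206 := mul v157 v205; ok v206 && (
  let v207 := scale ⟨1649267441664, 0, 0, 0⟩ v206; ok v207 && (
  let v208 := add v207 v0; ok v208 && (
  let v209 := mul v160 v208; ok v209 && (
  let v210 := mul x2 v209; ok v210 && (
  let v211 := scale ⟨0, 0, 1099511627776, 0⟩ v210; ok v211 && (
  let v212 := mul v211 v211; ok v212 && (
  let v213 := sub v205 v212; ok v213 && (
  let v214 := mul v199 v199; ok v214 && (
  let v215 := mul v214 v213; ok v215 && (
  let v216 := mul v157 v215; ok v216 && (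
  let v217 := scale ⟨4398046511104, 0, 0, 0⟩ v216; ok v217 && (
  let v218 := sub v0 v217; ok v218 && (
  isPos 3 v218 && (
  let v219 := log v218; ok v219 && (
  let v220 := scale ⟨549755813888, 0, 0, 0⟩ v219; ok v220 && (
  let v221 := exp v220; ok v221 && (
  let v222 := mul x0 v214; ok v222 && (
  let v223 := mul v205 v203; ok v223 && (
  let v224 := scale ⟨2199023255552, 0, 0, 0⟩ v213; ok v224 && (
  let v225 := add v223 v224; ok v225 && (
  let v226 := mul v222 v225; ok v226 && (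
  let v227 := mul v211 v221; ok v227 && (
  let v228 := mul v199 v227; ok v228 && (
  let v229 := add v226 v228; ok v229 && (
  let v230 := mul v203 v229; ok v230 && (
  let v231 := scale ⟨4398046511104, 0, 0, 0⟩ v230; ok v231 && (
  let v232 := mul x0 v231; ok v232 && (
  let v233 := add v232 v0; ok v233 && (
  isPos 3 v233 && (
  let v234 := log v233; ok v234 && (
  let v235 := scale ⟨549755813888, 0, 0, 0⟩ v234; ok v235 && (
  let v236 := exp v235; ok v236 && (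
  let v237 := add v236 v0; ok v237 && (
  isPos 3 v237 && (
  let v238 := inv v237; ok v238 && (
  let v239 := mul v231 v238; ok v239 && (
  let v240 := scale ⟨549755813888, 0, 0, 0⟩ v26; ok v240 && (
  let v241 := sub v239 v240; ok v241 && (
  let v242 := cst ⟨9525163720704, 0, 0, 0⟩; ok v242 && (
  let v243 := add v27 v242; ok v243 && (
  isPos 3 v243 && (
  let v244 := mul v241 v241; ok v244 && (
  let v245 := sub v244 v27; ok v245 && (
  let v246 := inv v243; ok v246 && (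
  let v247 := mul v245 v246; ok v247 && (
  isLt v247 1099510579200 && (
  let v248 := mul x0 v199; ok v248 && (
  let v249 := mul v248 v211; ok v249 && (
  let v250 := scale ⟨2199023255552, 0, 0, 0⟩ v249; ok v250 && (
  let v251 := sub v221 v250; ok v251 && (
  isPos 3 v251 && (
  let v252 := add v3 v5; ok v252 && (
  let v253 := mul v211 v252; ok v253 && (
  let v254 := mul x0 v253; ok v254 && (
  let v255 := add v254 v10; ok v255 && (
  isPos 3 v255 && (
  let v256 := inv v255; ok v256 && (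
  let v257 := mul v10 v253; ok v257 && (
  let v258 := add v257 v28; ok v258 && (
  let v259 := mul v256 v258; ok v259 && (
  isPos 3 x0 && (
  let v260 := inv x0; ok v260 && (
  let v261 := sub v241 v259; ok v261 && (
  let v262 := mul v261 v260; ok v262 && (
  let v263 := add v253 v24; ok v263 && (
  let v264 := mul v7 v255; ok v264 && (
  let v265 := inv v263; ok v265 && (
  let v266 := mul v264 v265; ok v266 && (
  let v267 := mul v266 v262; ok v267 && (
  let v268 := mul x0 v267; ok v268 && (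
  let v269 := add v268 v0; ok v269 && (
  let v270 := scale ⟨0, 67338764288, 0, 0⟩ v36; ok v270 && (
  let v271 := scale ⟨0, 14467006464, 0, 0⟩ v37; ok v271 && (
  let v272 := add v270 v271; ok v272 && (
  let v273 := scale ⟨22926327808, 0, 0, 0⟩ v38; ok v273 && (
  let v274 := add v272 v273; ok v274 && (
  let v275 := scale ⟨24561471389696, 0, 0, 0⟩ v34; ok v275 && (
  let v276 := add v274 v275; ok v276 && (
  let v277 := scale ⟨14716567552000, 0, 0, 0⟩ v41; ok v277 && (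
  let v278 := add v276 v277; ok v278 && (
  let v279 := cst ⟨594412175360, 0, 0, 0⟩; ok v279 && (
  let v280 := add v278 v279; ok v280 && (
  let v281 := scale ⟨2199023255552, 0, 0, 0⟩ v267; ok v281 && (
  let v282 := inv v269; ok v282 && (
  let v283 := mul v266 v282; ok v283 && (
  let v284 := mul v281 v283; ok v284 && (
  let v285 := mul v6 v6; ok v285 && (
  let v286 := inv v280; ok v286 && (
  let v287 := mul v285 v286; ok v287 && (
  let v288 := mul v284 v287; ok v288 && (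
  isLt v288 1099510579200 && (
  let v289 := mul x0 v241; ok v289 && (
  let v290 := add v289 v10; ok v290 && (
  isPos 3 v290 && (
  let v291 := inv v290; ok v291 && (
  let v292 := mul v7 v291; ok v292 && (
  let v293 := sub v241 v24; ok v293 && (
  let v294 := add v7 v291; ok v294 && (
  let v295 := mul v293 v294; ok v295 && (
  let v296 := mul v292 v295; ok v296 && (
  let v297 := mul v7 v24; ok v297 && (
  let v298 := scale ⟨2199023255552, 0, 0, 0⟩ v297; ok v298 && (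
  let v299 := add v296 v298; ok v299 && (
  let v300 := scale ⟨0, 277523606798336, 0, 0⟩ v34; ok v300 && (
  let v301 := cst ⟨0, 3235452551168, 0, 0⟩; ok v301 && (
  let v302 := add v300 v301; ok v302 && (
  let v303 := sub v299 v302; ok v303 && (
  isPos 3 v303 && (
  let v304 := inv v303; ok v304 && (
  let v305 := scale ⟨31362867265536, 0, 0, 0⟩ v304; ok v305 && (
  let v306 := add v303 v305; ok v306 && (
  isPos 3 v306 && (
  let v307 := inv v306; ok v307 && (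
  let v308 := scale ⟨0, 13312983040, 0, 0⟩ v36; ok v308 && (
  let v309 := scale ⟨0, 29265151899520, 0, 0⟩ v34; ok v309 && (
  let v310 := add v308 v309; ok v310 && (
  let v311 := cst ⟨0, 125864585088, 0, 0⟩; ok v311 && (
  let v312 := add v310 v311; ok v312 && (
  let v313 := scale ⟨0, 90825542464, 0, 0⟩ v36; ok v313 && (
  let v314 := scale ⟨93836166731264, 0, 0, 0⟩ v34; ok v314 && (
  let v315 := add v313 v314; ok v315 && (
  let v316 := cst ⟨649430117824, 0, 0, 0⟩; ok v316 && (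
  let v317 := add v315 v316; ok v317 && (
  let v318 := mul v304 v317; ok v318 && (
  let v319 := add v312 v318; ok v319 && (
  let v320 := mul v319 v307; ok v320 && (
  let v321 := scale ⟨0, 26048, 0, 0⟩ v299; ok v321 && (
  let v322 := cst ⟨1879296, 0, 0, 0⟩; ok v322 && (
  let v323 := add v321 v322; ok v323 && (
  let v324 := mul v299 v323; ok v324 && (
  let v325 := add v324 v68; ok v325 && (
  let v326 := mul v299 v325; ok v326 && (
  let v327 := add v326 v63; ok v327 && (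
  let v328 := mul v299 v327; ok v328 && (
  let v329 := add v320 v56; ok v329 && (
  let v330 := add v328 v329; ok v330 && (
  let v331 := mul v296 v330; ok v331 && (
  let v332 := add v331 v11; ok v332 && (
  let v333 := neg v332; ok v333 && (
  let v334 := exp v333; ok v334 && (
  let v335 := add v334 v0; ok v335 && (
  isPos 3 v335 && (
  let v336 := log v335; ok v336 && (
  let v337 := add v156 v188; ok v337 && (
  let v338 := sub v337 v336; ok v338 && (
  let v339 := scale ⟨549755813888, 0, 0, 0⟩ v234; ok v339 && (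
  let v340 := mul v339 v260; ok v340 && (
  let v341 := sub v338 v340; ok v341 && (
  let v342 := exp v341; ok v342 && (
  let v343 := scale ⟨12628983808, 0, 0, 0⟩ v73; ok v343 && (
  let v344 := cst ⟨0, 4040753152, 0, 0⟩; ok v344 && (
  let v345 := add v343 v344; ok v345 && (
  let v346 := mul v73 v345; ok v346 && (
  let v347 := cst ⟨4890689536, 0, 0, 0⟩; ok v347 && (
  let v348 := add v346 v347; ok v348 && (
  let v349 := mul v73 v348; ok v349 && (
  let v350 := scale ⟨0, 6355484672, 0, 0⟩ v36; ok v350 && (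
  let v351 := scale ⟨0, 722764103680, 0, 0⟩ v34; ok v351 && (
  let v352 := add v350 v351; ok v352 && (
  let v353 := cst ⟨11289034752, 0, 0, 0⟩; ok v353 && (
  let v354 := add v352 v353; ok v354 && (
  let v355 := add v349 v354; ok v355 && (
  let v356 := mul v73 v355; ok v356 && (
  let v357 := scale ⟨1307574272, 0, 0, 0⟩ v36; ok v357 && (
  let v358 := scale ⟨4121237127168, 0, 0, 0⟩ v34; ok v358 && (
  let v359 := add v357 v358; ok v359 && (
  let v360 := cst ⟨24370348032, 0, 0, 0⟩; ok v360 && (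
  let v361 := add v359 v360; ok v361 && (
  let v362 := add v356 v361; ok v362 && (
  let v363 := mul v73 v362; ok v363 && (
  let v364 := scale ⟨2553348096, 0, 0, 0⟩ v36; ok v364 && (
  let v365 := scale ⟨0, 2834169856, 0, 0⟩ v37; ok v365 && (
  let v366 := add v364 v365; ok v366 && (
  let v367 := scale ⟨1812146946048, 0, 0, 0⟩ v34; ok v367 && (
  let v368 := add v366 v367; ok v368 && (
  let v369 := scale ⟨1180713811968, 0, 0, 0⟩ v41; ok v369 && (
  let v370 := add v368 v369; ok v370 && (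
  let v371 := scale ⟨220035240165376, 0, 0, 0⟩ v43; ok v371 && (
  let v372 := add v370 v371; ok v372 && (
  let v373 := cst ⟨1105153622016, 0, 0, 0⟩; ok v373 && (
  let v374 := add v372 v373; ok v374 && (
  let v375 := add v363 v374; ok v375 && (
  let v376 := inv v180; ok v376 && (
  let v377 := mul v376 v182; ok v377 && (
  let v378 := scale ⟨329907175424, 0, 0, 0⟩ v241; ok v378 && (
  let v379 := add v378 v0; ok v379 && (
  isPos 3 v379 && (
  let v380 := scale ⟨285802496, 0, 0, 0⟩ v36; ok v380 && (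
  let v381 := scale ⟨335413248, 0, 0, 0⟩ v37; ok v381 && (
  let v382 := add v380 v381; ok v382 && (
  let v383 := scale ⟨0, 324206592, 0, 0⟩ v38; ok v383 && (
  let v384 := add v382 v383; ok v384 && (
  let v385 := scale ⟨43191959552, 0, 0, 0⟩ v34; ok v385 && (
  let v386 := add v384 v385; ok v386 && (
  let v387 := scale ⟨488599977984, 0, 0, 0⟩ v41; ok v387 && (
  let v388 := add v386 v387; ok v388 && (
  let v389 := cst ⟨9224060928, 0, 0, 0⟩; ok v389 && (
  let v390 := add v388 v389; ok v390 && (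
  let v391 := scale ⟨3435973836800, 0, 0, 0⟩ v2; ok v391 && (
  let v392 := neg v391; ok v392 && (
  let v393 := exp v392; ok v393 && (
  let v394 := mul v390 v393; ok v394 && (
  let v395 := scale ⟨2199023255552, 0, 0, 0⟩ v394; ok v395 && (
  let v396 := add v241 v24; ok v396 && (
  let v397 := mul v395 v396; ok v397 && (
  let v398 := inv v379; ok v398 && (
  let v399 := mul v397 v398; ok v399 && (
  let v400 := cst ⟨0, 0, 0, 0⟩; ok v400 && (
  let v401 := mul v375 v342; ok v401 && (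
  let v402 := mul v401 v334; ok v402 && (
  let v403 := mul v399 v377; ok v403 && (
  let v404 := mul v402 v403; ok v404 && (
  let v405 := rball v400 v404; ok v405 && (
  let v406 := sub v0 v375; ok v406 && (
  let v407 := mul x3 v406; ok v407 && (
  let v408 := sub v0 v342; ok v408 && (
  let v409 := mul v408 v377; ok v409 && (
  let v410 := mul v375 v409; ok v410 && (
  let v411 := add v407 v410; ok v411 && (
  let v412 := add v411 v405; ok v412 && (
  isLt v412 1099510579200 && (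
  true))))))))))))))))))))))))))))))))))))))))))))))))))))))))))))))))))))))))))))))))))))))))))))))))))))))))))))))))))))))))))))))))))))))))))))))))))))))))))))))))))))))))))))))))))))))))))))))))))))))))))))))))))))))))))))))))))))))))))))))))))))))))))))))))))))))))))))))))))))))))))))))))))))))))))))))))))))))))))))))))))))))))))))))))))))))))))))))))))))))))))))))))))))))))))))))))))))))))))))))))))))))))))))))))))))))))))))))))))
  | _ => false

set_option maxRecDepth 1000000 in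
theorem c_Z_0_eq (X : XOps) (m : List X.O.α)
    (h : c_Z_0 X.O.cst X.O.add X.O.sub X.O.mul X.O.scale X.O.neg X.O.inv X.O.exp X.O.log X.O.ok
      X.O.isPos X.O.isLt X.ball X.rball m = true) :
    runX X 3 p_Z_0 m = true := by
  match m, h with
  | [x0, x1, x2, x3], h => exact h

abbrev gZ : List (List Op) := [p_Z_0]

noncomputable abbrev kZ : List (List xE.O.α → Bool) := [c_Z_0 xE.O.cst xE.O.add xE.O.sub xE.O.mul xE.O.scale xE.O.neg xE.O.inv xE.O.exp xE.O.log xE.O.ok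
      xE.O.isPos xE.O.isLt xE.ball xE.rball]

theorem kZ_eq : List.Forall₂ (fun (ops : List Op) (chk : List xE.O.α → Bool) =>
    ∀ m, chk m = true → runX xE 3 ops m = true) gZ kZ :=
  List.Forall₂.cons (c_Z_0_eq xE) List.Forall₂.nil

theorem gZ_eq : gZ = [comp (PS0 tab) ρ4 4] := by decide +kernel

def p_T_0 : List Op := [
  .const ⟨1099511627776, 0, 0, 0⟩,
  .mul 1 2,
  .scale ⟨2199023255552, 0, 0, 0⟩ 0,
  .exp 1,
  .neg 2,
  .exp 0,
  .mul 2 2,
  .mul 1 1,
  .mul 0 0,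
  .add 2 1,
  .scale ⟨549755813888, 0, 0, 0⟩ 0,
  .scale ⟨2199023255552, 0, 0, 0⟩ 12,
  .mul 10 10,
  .lt 0 68719476736,
  .scale ⟨9162596898, 0, 0, 0⟩ 0,
  .const ⟨183251937962, 0, 0, 0⟩,
  .add 1 0,
  .mul 0 3,
  .const ⟨1099511627776, 0, 0, 0⟩,
  .add 1 0,
  .const ⟨65536, 0, 0, 0⟩,
  .rball 1 0,
  .mul 9 0,
  .add 18 16,
  .scale ⟨549755813888, 0, 0, 0⟩ 0,
  .mul 2 0,
  .mul 3 3,
  .mul 26 0,
  .mul 2 2,
  .mul 28 0,
  .neg 17,
  .exp 0,
  .add 0 30,
  .pos 0,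
  .log 0,
  .const ⟨6408896512, 0, 0, 0⟩,
  .sub 34 0,
  .const ⟨5497558138880, 0, 0, 0⟩,
  .sub 37 0,
  .mul 0 0,
  .mul 0 1,
  .mul 0 2,
  .mul 0 3,
  .mul 6 4,
  .mul 7 4,
  .mul 8 8,
  .const ⟨769604452352, 0, 0, 0⟩,
  .scale ⟨0, 0, 1099511627776, 0⟩ 0,
  .scale ⟨549755813888, 0, 0, 0⟩ 0,
  .add 0 46,
  .inv 0,
  .mul 3 0,
  .scale ⟨0, 421567106560, 0, 0⟩ 0,
  .const ⟨690025783296, 0, 0, 0⟩,
  .add 1 0,
  .mul 3 0,
  .scale ⟨370087201344, 0, 0, 0⟩ 17,
  .const ⟨0, 484765457920, 0, 0⟩,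
  .add 1 0,
  .add 3 0,
  .mul 8 0,
  .scale ⟨0, 170529028544, 0, 0⟩ 22,
  .const ⟨294418687552, 0, 0, 0⟩,
  .add 1 0,
  .add 3 0,
  .mul 13 0,
  .scale ⟨0, 96119200768, 0, 0⟩ 27,
  .scale ⟨0, 139386711232, 0, 0⟩ 27,
  .add 1 0,
  .scale ⟨0, 98745691646912, 0, 0⟩ 32,
  .add 1 0,
  .const ⟨848071330752, 0, 0, 0⟩,
  .add 1 0,
  .add 7 0,
  .mul 22 0,
  .scale ⟨431615968256, 0, 0, 0⟩ 36,
  .scale ⟨44158202240, 0, 0, 0⟩ 36,
  .add 1 0,
  .scale ⟨0, 65216551808, 0, 0⟩ 37,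
  .add 1 0,
  .scale ⟨120366218173888, 0, 0, 0⟩ 43,
  .add 1 0,
  .const ⟨484119696384, 0, 0, 0⟩,
  .add 1 0,
  .add 9 0,
  .mul 33 0,
  .scale ⟨0, 331819290304, 0, 0⟩ 47,
  .scale ⟨43842616768, 0, 0, 0⟩ 47,
  .add 1 0,
  .scale ⟨50575453184, 0, 0, 0⟩ 48,
  .add 1 0,
  .scale ⟨0, 109254481605312, 0, 0⟩ 54,
  .add 1 0,
  .scale ⟨43932383625344, 0, 0, 0⟩ 49,
  .add 1 0,
  .const ⟨1274162593984, 0, 0, 0⟩,
  .add 1 0,
  .add 11 0,
  .mul 46 0,
  .scale ⟨98246344320, 0, 0, 0⟩ 60,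
  .scale ⟨914365962752, 0, 0, 0⟩ 60,
  .add 1 0,
  .scale ⟨0, 15022982720, 0, 0⟩ 61,
  .add 1 0,
  .scale ⟨0, 775846520832, 0, 0⟩ 62,
  .add 1 0,
  .scale ⟨16880281554432, 0, 0, 0⟩ 69,
  .add 1 0,
  .scale ⟨0, 45680187011200, 0, 0⟩ 64,
  .add 1 0,
  .const ⟨3678175585536, 0, 0, 0⟩,
  .add 1 0,
  .add 13 0,
  .mul 61 0,
  .scale ⟨37036760640, 0, 0, 0⟩ 75,
  .scale ⟨36531803072, 0, 0, 0⟩ 75,
  .add 1 0,
  .scale ⟨5791161856, 0, 0, 0⟩ 76,
  .add 1 0,
  .scale ⟨0, 27261680192, 0, 0⟩ 77,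
  .add 1 0,
  .scale ⟨0, 4922424448, 0, 0⟩ 78,
  .add 1 0,
  .scale ⟨28224434470912, 0, 0, 0⟩ 86,
  .add 1 0,
  .scale ⟨8220046355904, 0, 0, 0⟩ 81,
  .add 1 0,
  .scale ⟨0, 26840849856, 0, 0⟩ 82,
  .add 1 0,
  .scale ⟨126688979366208, 0, 0, 0⟩ 83,
  .add 1 0,
  .const ⟨138125513792, 0, 0, 0⟩,
  .add 1 0,
  .mul 0 132,
  .add 20 0,
  .mul 133 133,
  .scale ⟨5703716569088, 0, 0, 0⟩ 0,
  .const ⟨1726576852992, 0, 0, 0⟩,
  .add 1 0,
  .scale ⟨4398046511104, 0, 0, 0⟩ 138,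
  .mul 88 1,
  .scale ⟨4398046511104, 0, 0, 0⟩ 0,
  .add 2 0,
  .scale ⟨0, 15834284032, 0, 0⟩ 104,
  .scale ⟨0, 274313183232, 0, 0⟩ 104,
  .add 1 0,
  .scale ⟨21763784704, 0, 0, 0⟩ 105,
  .add 1 0,
  .scale ⟨11711488917504, 0, 0, 0⟩ 111,
  .add 1 0,
  .scale ⟨6297317277696, 0, 0, 0⟩ 106,
  .add 1 0,
  .const ⟨408679088128, 0, 0, 0⟩,
  .add 1 0,
  .scale ⟨12369505812480, 0, 0, 0⟩ 149,
  .neg 0,
  .exp 0,
  .mul 3 0,
  .mul 0 15,
  .scale ⟨439697276928, 0, 0, 0⟩ 16,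
  .add 0 157,
  .pos 0,
  .inv 0,
  .mul 3 0,
  .neg 28,
  .exp 0,
  .add 0 162,
  .pos 0,
  .log 0,
  .mul 4 167,
  .sub 165 0,
  .pos 0,
  .log 0,
  .mul 5 2,
  .add 0 168,
  .pos 0,
  .log 0,
  .sub 6 0,
  .add 173 139,
  .sub 1 0,
  .mul 0 174,
  .exp 0,
  .sub 5 8,
  .add 0 44,
  .mul 0 178,
  .exp 0,
  .mul 158 158,
  .scale ⟨274877906944, 0, 0, 0⟩ 0,
  .mul 48 0,
  .scale ⟨1649267441664, 0, 0, 0⟩ 0,
  .add 0 183,
  .mul 48 0,
  .mul 141 0,
  .scale ⟨0, 0, 1099511627776, 0⟩ 0,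
  .mul 0 0,
  .sub 7 0,
  .mul 14 14,
  .mul 0 1,
  .mul 58 0,
  .scale ⟨4398046511104, 0, 0, 0⟩ 0,
  .sub 193 0,
  .pos 0,
  .log 0,
  .scale ⟨549755813888, 0, 0, 0⟩ 0,
  .exp 0,
  .mul 198 22,
  .mul 0 11,
  .scale ⟨2199023255552, 0, 0, 0⟩ 0,
  .sub 3 0,
  .pos 0,
  .pos 202,
  .inv 202,
  .const ⟨549755813888, 0, 0, 0⟩,
  .sub 33 39,
  .log 3,
  .mul 0 3,
  .add 2 0,
  .exp 0,
  .sub 5 0,
  .pos 0]

set_option maxRecDepth 1000000 in
noncomputable def c_T_0 {α : Type} (cst : Z → α) (add sub mul : α → α → α) (scale : Z → α → α)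
    (neg inv exp log : α → α) (ok : α → Bool) (isPos : Nat → α → Bool) (isLt : α → Nat → Bool)
    (ball : Nat → α → α) (rball : α → α → α) : List α → Bool
  | [x0, x1, x2] =>
  let v0 := cst ⟨1099511627776, 0, 0, 0⟩; ok v0 && (
  let v1 := mul x0 x1; ok v1 && (
  let v2 := scale ⟨2199023255552, 0, 0, 0⟩ v1; ok v2 && (
  let v3 := exp v1; ok v3 && (
  let v4 := neg v1; ok v4 && (
  let v5 := exp v4; ok v5 && (
  let v6 := mul v3 v3; ok v6 && (
  let v7 := mul v5 v5; ok v7 && (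
  let v8 := mul v7 v7; ok v8 && (
  let v9 := add v6 v7; ok v9 && (
  let v10 := scale ⟨549755813888, 0, 0, 0⟩ v9; ok v10 && (
  let v11 := scale ⟨2199023255552, 0, 0, 0⟩ x1; ok v11 && (
  let v12 := mul v1 v1; ok v12 && (
  isLt v12 68719476736 && (
  let v13 := scale ⟨9162596898, 0, 0, 0⟩ v12; ok v13 && (
  let v14 := cst ⟨183251937962, 0, 0, 0⟩; ok v14 && (
  let v15 := add v13 v14; ok v15 && (
  let v16 := mul v15 v12; ok v16 && (
  let v17 := cst ⟨1099511627776, 0, 0, 0⟩; ok v17 && (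
  let v18 := add v16 v17; ok v18 && (
  let v19 := cst ⟨65536, 0, 0, 0⟩; ok v19 && (
  let v20 := rball v18 v19; ok v20 && (
  let v21 := mul v11 v20; ok v21 && (
  let v22 := add v3 v5; ok v22 && (
  let v23 := scale ⟨549755813888, 0, 0, 0⟩ v22; ok v23 && (
  let v24 := mul v21 v23; ok v24 && (
  let v25 := mul v21 v21; ok v25 && (
  let v26 := mul x0 v25; ok v26 && (
  let v27 := mul v24 v24; ok v27 && (
  let v28 := mul x0 v27; ok v28 && (
  let v29 := neg v11; ok v29 && (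
  let v30 := exp v29; ok v30 && (
  let v31 := add v30 v0; ok v31 && (
  isPos 2 v31 && (
  let v32 := log v31; ok v32 && (
  let v33 := cst ⟨6408896512, 0, 0, 0⟩; ok v33 && (
  let v34 := sub x0 v33; ok v34 && (
  let v35 := cst ⟨5497558138880, 0, 0, 0⟩; ok v35 && (
  let v36 := sub x1 v35; ok v36 && (
  let v37 := mul v36 v36; ok v37 && (
  let v38 := mul v37 v36; ok v38 && (
  let v39 := mul v38 v36; ok v39 && (
  let v40 := mul v39 v36; ok v40 && (
  let v41 := mul v34 v36; ok v41 && (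
  let v42 := mul v34 v37; ok v42 && (
  let v43 := mul v34 v34; ok v43 && (
  let v44 := cst ⟨769604452352, 0, 0, 0⟩; ok v44 && (
  let v45 := scale ⟨0, 0, 1099511627776, 0⟩ v44; ok v45 && (
  let v46 := scale ⟨549755813888, 0, 0, 0⟩ v45; ok v46 && (
  let v47 := add v46 v0; ok v47 && (
  let v48 := inv v47; ok v48 && (
  let v49 := mul v45 v48; ok v49 && (
  let v50 := scale ⟨0, 421567106560, 0, 0⟩ v49; ok v50 && (
  let v51 := cst ⟨690025783296, 0, 0, 0⟩; ok v51 && (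
  let v52 := add v50 v51; ok v52 && (
  let v53 := mul v49 v52; ok v53 && (
  let v54 := scale ⟨370087201344, 0, 0, 0⟩ v36; ok v54 && (
  let v55 := cst ⟨0, 484765457920, 0, 0⟩; ok v55 && (
  let v56 := add v54 v55; ok v56 && (
  let v57 := add v53 v56; ok v57 && (
  let v58 := mul v49 v57; ok v58 && (
  let v59 := scale ⟨0, 170529028544, 0, 0⟩ v36; ok v59 && (
  let v60 := cst ⟨294418687552, 0, 0, 0⟩; ok v60 && (
  let v61 := add v59 v60; ok v61 && (
  let v62 := add v58 v61; ok v62 && (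
  let v63 := mul v49 v62; ok v63 && (
  let v64 := scale ⟨0, 96119200768, 0, 0⟩ v36; ok v64 && (
  let v65 := scale ⟨0, 139386711232, 0, 0⟩ v37; ok v65 && (
  let v66 := add v64 v65; ok v66 && (
  let v67 := scale ⟨0, 98745691646912, 0, 0⟩ v34; ok v67 && (
  let v68 := add v66 v67; ok v68 && (
  let v69 := cst ⟨848071330752, 0, 0, 0⟩; ok v69 && (
  let v70 := add v68 v69; ok v70 && (
  let v71 := add v63 v70; ok v71 && (
  let v72 := mul v49 v71; ok v72 && (
  let v73 := scale ⟨431615968256, 0, 0, 0⟩ v36; ok v73 && (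
  let v74 := scale ⟨44158202240, 0, 0, 0⟩ v37; ok v74 && (
  let v75 := add v73 v74; ok v75 && (
  let v76 := scale ⟨0, 65216551808, 0, 0⟩ v38; ok v76 && (
  let v77 := add v75 v76; ok v77 && (
  let v78 := scale ⟨120366218173888, 0, 0, 0⟩ v34; ok v78 && (
  let v79 := add v77 v78; ok v79 && (
  let v80 := cst ⟨484119696384, 0, 0, 0⟩; ok v80 && (
  let v81 := add v79 v80; ok v81 && (
  let v82 := add v72 v81; ok v82 && (
  let v83 := mul v49 v82; ok v83 && (
  let v84 := scale ⟨0, 331819290304, 0, 0⟩ v36; ok v84 && (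
  let v85 := scale ⟨43842616768, 0, 0, 0⟩ v37; ok v85 && (
  let v86 := add v84 v85; ok v86 && (
  let v87 := scale ⟨50575453184, 0, 0, 0⟩ v38; ok v87 && (
  let v88 := add v86 v87; ok v88 && (
  let v89 := scale ⟨0, 109254481605312, 0, 0⟩ v34; ok v89 && (
  let v90 := add v88 v89; ok v90 && (
  let v91 := scale ⟨43932383625344, 0, 0, 0⟩ v41; ok v91 && (
  let v92 := add v90 v91; ok v92 && (
  let v93 := cst ⟨1274162593984, 0, 0, 0⟩; ok v93 && (
  let v94 := add v92 v93; ok v94 && (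
  let v95 := add v83 v94; ok v95 && (
  let v96 := mul v49 v95; ok v96 && (
  let v97 := scale ⟨98246344320, 0, 0, 0⟩ v36; ok v97 && (
  let v98 := scale ⟨914365962752, 0, 0, 0⟩ v37; ok v98 && (
  let v99 := add v97 v98; ok v99 && (
  let v100 := scale ⟨0, 15022982720, 0, 0⟩ v38; ok v100 && (
  let v101 := add v99 v100; ok v101 && (
  let v102 := scale ⟨0, 775846520832, 0, 0⟩ v39; ok v102 && (
  let v103 := add v101 v102; ok v103 && (
  let v104 := scale ⟨16880281554432, 0, 0, 0⟩ v34; ok v104 && (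
  let v105 := add v103 v104; ok v105 && (
  let v106 := scale ⟨0, 45680187011200, 0, 0⟩ v41; ok v106 && (
  let v107 := add v105 v106; ok v107 && (
  let v108 := cst ⟨3678175585536, 0, 0, 0⟩; ok v108 && (
  let v109 := add v107 v108; ok v109 && (
  let v110 := add v96 v109; ok v110 && (
  let v111 := mul v49 v110; ok v111 && (
  let v112 := scale ⟨37036760640, 0, 0, 0⟩ v36; ok v112 && (
  let v113 := scale ⟨36531803072, 0, 0, 0⟩ v37; ok v113 && (
  let v114 := add v112 v113; ok v114 && (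
  let v115 := scale ⟨5791161856, 0, 0, 0⟩ v38; ok v115 && (
  let v116 := add v114 v115; ok v116 && (
  let v117 := scale ⟨0, 27261680192, 0, 0⟩ v39; ok v117 && (
  let v118 := add v116 v117; ok v118 && (
  let v119 := scale ⟨0, 4922424448, 0, 0⟩ v40; ok v119 && (
  let v120 := add v118 v119; ok v120 && (
  let v121 := scale ⟨28224434470912, 0, 0, 0⟩ v34; ok v121 && (
  let v122 := add v120 v121; ok v122 && (
  let v123 := scale ⟨8220046355904, 0, 0, 0⟩ v41; ok v123 && (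
  let v124 := add v122 v123; ok v124 && (
  let v125 := scale ⟨0, 26840849856, 0, 0⟩ v42; ok v125 && (
  let v126 := add v124 v125; ok v126 && (
  let v127 := scale ⟨126688979366208, 0, 0, 0⟩ v43; ok v127 && (
  let v128 := add v126 v127; ok v128 && (
  let v129 := cst ⟨138125513792, 0, 0, 0⟩; ok v129 && (
  let v130 := add v128 v129; ok v130 && (
  let v131 := mul v130 x1; ok v131 && (
  let v132 := add v111 v131; ok v132 && (
  let v133 := mul x0 x0; ok v133 && (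
  let v134 := scale ⟨5703716569088, 0, 0, 0⟩ v133; ok v134 && (
  let v135 := cst ⟨1726576852992, 0, 0, 0⟩; ok v135 && (
  let v136 := add v134 v135; ok v136 && (
  let v137 := scale ⟨4398046511104, 0, 0, 0⟩ x1; ok v137 && (
  let v138 := mul v49 v136; ok v138 && (
  let v139 := scale ⟨4398046511104, 0, 0, 0⟩ v138; ok v139 && (
  let v140 := add v137 v139; ok v140 && (
  let v141 := scale ⟨0, 15834284032, 0, 0⟩ v36; ok v141 && (
  let v142 := scale ⟨0, 274313183232, 0, 0⟩ v37; ok v142 && (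
  let v143 := add v141 v142; ok v143 && (
  let v144 := scale ⟨21763784704, 0, 0, 0⟩ v38; ok v144 && (
  let v145 := add v143 v144; ok v145 && (
  let v146 := scale ⟨11711488917504, 0, 0, 0⟩ v34; ok v146 && (
  let v147 := add v145 v146; ok v147 && (
  let v148 := scale ⟨6297317277696, 0, 0, 0⟩ v41; ok v148 && (
  let v149 := add v147 v148; ok v149 && (
  let v150 := cst ⟨408679088128, 0, 0, 0⟩; ok v150 && (
  let v151 := add v149 v150; ok v151 && (
  let v152 := scale ⟨12369505812480, 0, 0, 0⟩ v2; ok v152 && (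
  let v153 := neg v152; ok v153 && (
  let v154 := exp v153; ok v154 && (
  let v155 := mul v151 v154; ok v155 && (
  let v156 := mul v155 v140; ok v156 && (
  let v157 := scale ⟨439697276928, 0, 0, 0⟩ v140; ok v157 && (
  let v158 := add v157 v0; ok v158 && (
  isPos 2 v158 && (
  let v159 := inv v158; ok v159 && (
  let v160 := mul v156 v159; ok v160 && (
  let v161 := neg v132; ok v161 && (
  let v162 := exp v161; ok v162 && (
  let v163 := add v162 v0; ok v163 && (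
  isPos 2 v163 && (
  let v164 := log v163; ok v164 && (
  let v165 := mul v160 x2; ok v165 && (
  let v166 := sub v0 v165; ok v166 && (
  isPos 2 v166 && (
  let v167 := log v166; ok v167 && (
  let v168 := mul v162 v165; ok v168 && (
  let v169 := add v168 v0; ok v169 && (
  isPos 2 v169 && (
  let v170 := log v169; ok v170 && (
  let v171 := sub v164 v170; ok v171 && (
  let v172 := add x1 v32; ok v172 && (
  let v173 := sub v171 v172; ok v173 && (
  let v174 := mul v173 x0; ok v174 && (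
  let v175 := exp v174; ok v175 && (
  let v176 := sub v170 v167; ok v176 && (
  let v177 := add v176 v132; ok v177 && (
  let v178 := mul v177 x0; ok v178 && (
  let v179 := exp v178; ok v179 && (
  let v180 := mul v21 v21; ok v180 && (
  let v181 := scale ⟨274877906944, 0, 0, 0⟩ v180; ok v181 && (
  let v182 := mul v133 v181; ok v182 && (
  let v183 := scale ⟨1649267441664, 0, 0, 0⟩ v182; ok v183 && (
  let v184 := add v183 v0; ok v184 && (
  let v185 := mul v136 v184; ok v185 && (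
  let v186 := mul v44 v185; ok v186 && (
  let v187 := scale ⟨0, 0, 1099511627776, 0⟩ v186; ok v187 && (
  let v188 := mul v187 v187; ok v188 && (
  let v189 := sub v181 v188; ok v189 && (
  let v190 := mul v175 v175; ok v190 && (
  let v191 := mul v190 v189; ok v191 && (
  let v192 := mul v133 v191; ok v192 && (
  let v193 := scale ⟨4398046511104, 0, 0, 0⟩ v192; ok v193 && (
  let v194 := sub v0 v193; ok v194 && (
  isPos 2 v194 && (
  let v195 := log v194; ok v195 && (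
  let v196 := scale ⟨549755813888, 0, 0, 0⟩ v195; ok v196 && (
  let v197 := exp v196; ok v197 && (
  let v198 := mul x0 v175; ok v198 && (
  let v199 := mul v198 v187; ok v199 && (
  let v200 := scale ⟨2199023255552, 0, 0, 0⟩ v199; ok v200 && (
  let v201 := sub v197 v200; ok v201 && (
  isPos 2 v201 && (
  isPos 2 x0 && (
  let v202 := inv x0; ok v202 && (
  let v203 := cst ⟨549755813888, 0, 0, 0⟩; ok v203 && (
  let v204 := sub v170 v164; ok v204 && (
  let v205 := log v201; ok v205 && (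
  let v206 := mul v205 v202; ok v206 && (
  let v207 := add v204 v206; ok v207 && (
  let v208 := exp v207; ok v208 && (
  let v209 := sub v203 v208; ok v209 && (
  isPos 2 v209 && (
  true))))))))))))))))))))))))))))))))))))))))))))))))))))))))))))))))))))))))))))))))))))))))))))))))))))))))))))))))))))))))))))))))))))))))))))))))))))))))))))))))))))))))))))))))))))))))))))))))))))))))))))))))))))))))))))
  | _ => false

set_option maxRecDepth 1000000 in
theorem c_T_0_eq (X : XOps) (m : List X.O.α)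
    (h : c_T_0 X.O.cst X.O.add X.O.sub X.O.mul X.O.scale X.O.neg X.O.inv X.O.exp X.O.log X.O.ok
      X.O.isPos X.O.isLt X.ball X.rball m = true) :
    runX X 2 p_T_0 m = true := by
  match m, h with
  | [x0, x1, x2], h => exact h

abbrev gT : List (List Op) := [p_T_0]

noncomputable abbrev kT : List (List xE.O.α → Bool) := [c_T_0 xE.O.cst xE.O.add xE.O.sub xE.O.mul xE.O.scale xE.O.neg xE.O.inv xE.O.exp xE.O.log xE.O.ok
      xE.O.isPos xE.O.isLt xE.ball xE.rball]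

theorem kT_eq : List.Forall₂ (fun (ops : List Op) (chk : List xE.O.α → Bool) =>
    ∀ m, chk m = true → runX xE 2 ops m = true) gT kT :=
  List.Forall₂.cons (c_T_0_eq xE) List.Forall₂.nil

theorem gT_eq : gT = [comp (PST tab 769604452352) ρ3 3] := by decide +kernel

def p_S_0 : List Op := [
  .const ⟨1099511627776, 0, 0, 0⟩,
  .mul 1 2,
  .exp 0,
  .neg 1,
  .exp 0,
  .mul 3 3,
  .lt 0 68719476736,
  .scale ⟨9162596898, 0, 0, 0⟩ 0,
  .const ⟨183251937962, 0, 0, 0⟩,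
  .add 1 0,
  .mul 0 3,
  .const ⟨1099511627776, 0, 0, 0⟩,
  .add 1 0,
  .const ⟨65536, 0, 0, 0⟩,
  .rball 1 0,
  .scale ⟨2199023255552, 0, 0, 0⟩ 15,
  .mul 0 1,
  .add 13 11,
  .scale ⟨549755813888, 0, 0, 0⟩ 0,
  .mul 2 0,
  .mul 0 0,
  .const ⟨6408896512, 0, 0, 0⟩,
  .sub 21 0,
  .const ⟨5497558138880, 0, 0, 0⟩,
  .sub 24 0,
  .mul 0 0,
  .mul 0 1,
  .mul 4 2,
  .scale ⟨0, 67338764288, 0, 0⟩ 3,
  .scale ⟨0, 14467006464, 0, 0⟩ 3,
  .add 1 0,
  .scale ⟨22926327808, 0, 0, 0⟩ 4,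
  .add 1 0,
  .scale ⟨24561471389696, 0, 0, 0⟩ 10,
  .add 1 0,
  .scale ⟨14716567552000, 0, 0, 0⟩ 7,
  .add 1 0,
  .const ⟨594412175360, 0, 0, 0⟩,
  .add 1 0,
  .pos 0,
  .const ⟨9525163720704, 0, 0, 0⟩,
  .add 19 0,
  .pos 0,
  .const ⟨6408896512, 0, 0, 0⟩,
  .sub 41 0,
  .const ⟨5497558138880, 0, 0, 0⟩,
  .sub 44 0,
  .mul 0 0,
  .mul 0 1,
  .mul 4 2,
  .mul 42 42,
  .mul 0 0,
  .scale ⟨4398046511104, 0, 0, 0⟩ 47,
  .neg 0,
  .exp 0,
  .scale ⟨0, 67338764288, 0, 0⟩ 8,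
  .scale ⟨0, 14467006464, 0, 0⟩ 8,
  .add 1 0,
  .scale ⟨22926327808, 0, 0, 0⟩ 9,
  .add 1 0,
  .scale ⟨24561471389696, 0, 0, 0⟩ 15,
  .add 1 0,
  .scale ⟨14716567552000, 0, 0, 0⟩ 12,
  .add 1 0,
  .const ⟨594412175360, 0, 0, 0⟩,
  .add 1 0,
  .mul 63 44,
  .mul 0 1,
  .add 0 64,
  .mul 14 0,
  .scale ⟨2199023255552, 0, 0, 0⟩ 19,
  .mul 5 16,
  .sub 1 0,
  .pos 0,
  .scale ⟨31547129856, 0, 0, 0⟩ 26,
  .scale ⟨1381302272, 0, 0, 0⟩ 26,
  .add 1 0,
  .scale ⟨0, 477691904, 0, 0⟩ 27,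
  .add 1 0,
  .scale ⟨38906731560960, 0, 0, 0⟩ 33,
  .add 1 0,
  .scale ⟨7086705278976, 0, 0, 0⟩ 30,
  .add 1 0,
  .const ⟨305913593856, 0, 0, 0⟩,
  .add 1 0,
  .pos 0,
  .const ⟨13143673667584, 0, 0, 0⟩,
  .add 62 0,
  .pos 0,
  .const ⟨6408896512, 0, 0, 0⟩,
  .sub 84 0,
  .const ⟨5497558138880, 0, 0, 0⟩,
  .sub 87 0,
  .mul 0 0,
  .mul 0 1,
  .mul 4 2,
  .mul 85 85,
  .mul 0 0,
  .scale ⟨8796093022208, 0, 0, 0⟩ 90,
  .neg 0,
  .exp 0,
  .scale ⟨0, 35791634432, 0, 0⟩ 8,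
  .scale ⟨0, 13085704192, 0, 0⟩ 8,
  .add 1 0,
  .scale ⟨22448635904, 0, 0, 0⟩ 9,
  .add 1 0,
  .scale ⟨63468202950656, 0, 0, 0⟩ 15,
  .add 1 0,
  .scale ⟨21803272830976, 0, 0, 0⟩ 12,
  .add 1 0,
  .const ⟨900325769216, 0, 0, 0⟩,
  .add 1 0,
  .mul 106 87,
  .mul 0 1,
  .add 0 107,
  .mul 14 0,
  .scale ⟨1099511627776, 0, 0, 0⟩ 18,
  .add 0 110,
  .mul 21 0,
  .scale ⟨2199023255552, 0, 0, 0⟩ 0,
  .mul 8 19,
  .sub 1 0,
  .pos 0,
  .scale ⟨29520625664, 0, 0, 0⟩ 29,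
  .scale ⟨942997504, 0, 0, 0⟩ 29,
  .add 1 0,
  .scale ⟨155123712, 0, 0, 0⟩ 30,
  .add 1 0,
  .scale ⟨35317920563200, 0, 0, 0⟩ 36,
  .add 1 0,
  .scale ⟨5714105729024, 0, 0, 0⟩ 33,
  .add 1 0,
  .const ⟨285339942912, 0, 0, 0⟩,
  .add 1 0,
  .pos 0,
  .const ⟨15691663015936, 0, 0, 0⟩,
  .add 108 0,
  .pos 0,
  .const ⟨6408896512, 0, 0, 0⟩,
  .sub 130 0,
  .const ⟨5497558138880, 0, 0, 0⟩,
  .sub 133 0,
  .mul 0 0,
  .mul 0 1,
  .mul 4 2,
  .mul 131 131,
  .mul 0 0,
  .scale ⟨13194139533312, 0, 0, 0⟩ 136,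
  .neg 0,
  .exp 0,
  .scale ⟨0, 6271008768, 0, 0⟩ 8,
  .scale ⟨0, 12142706688, 0, 0⟩ 8,
  .add 1 0,
  .scale ⟨22603759616, 0, 0, 0⟩ 9,
  .add 1 0,
  .scale ⟨98786123513856, 0, 0, 0⟩ 15,
  .add 1 0,
  .scale ⟨27517378560000, 0, 0, 0⟩ 12,
  .add 1 0,
  .const ⟨1185665712128, 0, 0, 0⟩,
  .add 1 0,
  .mul 152 133,
  .mul 0 1,
  .add 0 153,
  .mul 14 0,
  .scale ⟨1099511627776, 0, 0, 0⟩ 18,
  .add 0 156,
  .mul 20 0,
  .add 0 158,
  .mul 23 0,
  .scale ⟨2199023255552, 0, 0, 0⟩ 0,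
  .mul 10 21,
  .sub 1 0,
  .pos 0,
  .scale ⟨29895426048, 0, 0, 0⟩ 31,
  .scale ⟨1414529024, 0, 0, 0⟩ 31,
  .add 1 0,
  .scale ⟨0, 606142464, 0, 0⟩ 32,
  .add 1 0,
  .scale ⟨32481758871552, 0, 0, 0⟩ 38,
  .add 1 0,
  .scale ⟨5035621810176, 0, 0, 0⟩ 35,
  .add 1 0,
  .const ⟨268988514304, 0, 0, 0⟩,
  .add 1 0,
  .pos 0,
  .const ⟨17485885603840, 0, 0, 0⟩,
  .add 156 0,
  .pos 0,
  .const ⟨6408896512, 0, 0, 0⟩,
  .sub 178 0,
  .const ⟨5497558138880, 0, 0, 0⟩,
  .sub 181 0,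
  .mul 0 0,
  .mul 0 1,
  .mul 4 2,
  .mul 179 179,
  .mul 0 0,
  .scale ⟨17592186044416, 0, 0, 0⟩ 184,
  .neg 0,
  .exp 0,
  .scale ⟨23624417280, 0, 0, 0⟩ 8,
  .scale ⟨0, 10728177664, 0, 0⟩ 8,
  .add 1 0,
  .scale ⟨21997617152, 0, 0, 0⟩ 9,
  .add 1 0,
  .scale ⟨131267882385408, 0, 0, 0⟩ 15,
  .add 1 0,
  .scale ⟨32553000370176, 0, 0, 0⟩ 12,
  .add 1 0,
  .const ⟨1454654226432, 0, 0, 0⟩,
  .add 1 0,
  .mul 200 181,
  .mul 0 1,
  .add 0 201,
  .mul 14 0,
  .scale ⟨1099511627776, 0, 0, 0⟩ 18,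
  .add 0 204,
  .mul 20 0,
  .add 0 206,
  .mul 22 0,
  .add 0 208,
  .mul 25 0,
  .scale ⟨2199023255552, 0, 0, 0⟩ 0,
  .mul 12 23,
  .sub 1 0,
  .pos 0,
  .scale ⟨29820059648, 0, 0, 0⟩ 33,
  .scale ⟨0, 203948032, 0, 0⟩ 33,
  .add 1 0,
  .scale ⟨0, 1266810880, 0, 0⟩ 34,
  .add 1 0,
  .scale ⟨30028952240128, 0, 0, 0⟩ 40,
  .add 1 0,
  .scale ⟨3593694150656, 0, 0, 0⟩ 37,
  .add 1 0,
  .const ⟨258633302016, 0, 0, 0⟩,
  .add 1 0,
  .pos 0,
  .const ⟨18874233782272, 0, 0, 0⟩,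
  .add 206 0,
  .pos 0,
  .const ⟨6408896512, 0, 0, 0⟩,
  .sub 228 0,
  .const ⟨5497558138880, 0, 0, 0⟩,
  .sub 231 0,
  .mul 0 0,
  .mul 0 1,
  .mul 4 2,
  .mul 229 229,
  .mul 0 0,
  .scale ⟨21990232555520, 0, 0, 0⟩ 234,
  .neg 0,
  .exp 0,
  .scale ⟨53444476928, 0, 0, 0⟩ 8,
  .scale ⟨0, 10932125696, 0, 0⟩ 8,
  .add 1 0,
  .scale ⟨20730806272, 0, 0, 0⟩ 9,
  .add 1 0,
  .scale ⟨161296834625536, 0, 0, 0⟩ 15,
  .add 1 0,
  .scale ⟨36146694520832, 0, 0, 0⟩ 12,
  .add 1 0,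
  .const ⟨1713287528448, 0, 0, 0⟩,
  .add 1 0,
  .mul 250 231,
  .mul 0 1,
  .add 0 251,
  .mul 14 0,
  .scale ⟨1099511627776, 0, 0, 0⟩ 18,
  .add 0 254,
  .mul 20 0,
  .add 0 256,
  .mul 22 0,
  .add 0 258,
  .mul 24 0,
  .add 0 260,
  .mul 27 0,
  .scale ⟨2199023255552, 0, 0, 0⟩ 0,
  .mul 14 25,
  .sub 1 0,
  .pos 0,
  .mul 266 247,
  .mul 0 17,
  .add 0 267,
  .scale ⟨4617947578368, 0, 0, 0⟩ 267,
  .neg 0,
  .exp 0,
  .mul 3 0,
  .lt 0 1099511627520]

set_option maxRecDepth 1000000 in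
noncomputable def c_S_0 {α : Type} (cst : Z → α) (add sub mul : α → α → α) (scale : Z → α → α)
    (neg inv exp log : α → α) (ok : α → Bool) (isPos : Nat → α → Bool) (isLt : α → Nat → Bool)
    (ball : Nat → α → α) (rball : α → α → α) : List α → Bool
  | [x0, x1] =>
  let v0 := cst ⟨1099511627776, 0, 0, 0⟩; ok v0 && (
  let v1 := mul x0 x1; ok v1 && (
  let v2 := exp v1; ok v2 && (
  let v3 := neg v1; ok v3 && (
  let v4 := exp v3; ok v4 && (
  let v5 := mul v1 v1; ok v5 && (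
  isLt v5 68719476736 && (
  let v6 := scale ⟨9162596898, 0, 0, 0⟩ v5; ok v6 && (
  let v7 := cst ⟨183251937962, 0, 0, 0⟩; ok v7 && (
  let v8 := add v6 v7; ok v8 && (
  let v9 := mul v8 v5; ok v9 && (
  let v10 := cst ⟨1099511627776, 0, 0, 0⟩; ok v10 && (
  let v11 := add v9 v10; ok v11 && (
  let v12 := cst ⟨65536, 0, 0, 0⟩; ok v12 && (
  let v13 := rball v11 v12; ok v13 && (
  let v14 := scale ⟨2199023255552, 0, 0, 0⟩ x1; ok v14 && (
  let v15 := mul v14 v13; ok v15 && (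
  let v16 := add v2 v4; ok v16 && (
  let v17 := scale ⟨549755813888, 0, 0, 0⟩ v16; ok v17 && (
  let v18 := mul v15 v17; ok v18 && (
  let v19 := mul v18 v18; ok v19 && (
  let v20 := cst ⟨6408896512, 0, 0, 0⟩; ok v20 && (
  let v21 := sub x0 v20; ok v21 && (
  let v22 := cst ⟨5497558138880, 0, 0, 0⟩; ok v22 && (
  let v23 := sub x1 v22; ok v23 && (
  let v24 := mul v23 v23; ok v24 && (
  let v25 := mul v24 v23; ok v25 && (
  let v26 := mul v21 v23; ok v26 && (
  let v27 := scale ⟨0, 67338764288, 0, 0⟩ v23; ok v27 && (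
  let v28 := scale ⟨0, 14467006464, 0, 0⟩ v24; ok v28 && (
  let v29 := add v27 v28; ok v29 && (
  let v30 := scale ⟨22926327808, 0, 0, 0⟩ v25; ok v30 && (
  let v31 := add v29 v30; ok v31 && (
  let v32 := scale ⟨24561471389696, 0, 0, 0⟩ v21; ok v32 && (
  let v33 := add v31 v32; ok v33 && (
  let v34 := scale ⟨14716567552000, 0, 0, 0⟩ v26; ok v34 && (
  let v35 := add v33 v34; ok v35 && (
  let v36 := cst ⟨594412175360, 0, 0, 0⟩; ok v36 && (
  let v37 := add v35 v36; ok v37 && (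
  isPos 2 v37 && (
  let v38 := cst ⟨9525163720704, 0, 0, 0⟩; ok v38 && (
  let v39 := add v19 v38; ok v39 && (
  isPos 2 v39 && (
  let v40 := cst ⟨6408896512, 0, 0, 0⟩; ok v40 && (
  let v41 := sub x0 v40; ok v41 && (
  let v42 := cst ⟨5497558138880, 0, 0, 0⟩; ok v42 && (
  let v43 := sub x1 v42; ok v43 && (
  let v44 := mul v43 v43; ok v44 && (
  let v45 := mul v44 v43; ok v45 && (
  let v46 := mul v41 v43; ok v46 && (
  let v47 := mul v4 v4; ok v47 && (
  let v48 := mul v47 v47; ok v48 && (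
  let v49 := scale ⟨4398046511104, 0, 0, 0⟩ v1; ok v49 && (
  let v50 := neg v49; ok v50 && (
  let v51 := exp v50; ok v51 && (
  let v52 := scale ⟨0, 67338764288, 0, 0⟩ v43; ok v52 && (
  let v53 := scale ⟨0, 14467006464, 0, 0⟩ v44; ok v53 && (
  let v54 := add v52 v53; ok v54 && (
  let v55 := scale ⟨22926327808, 0, 0, 0⟩ v45; ok v55 && (
  let v56 := add v54 v55; ok v56 && (
  let v57 := scale ⟨24561471389696, 0, 0, 0⟩ v41; ok v57 && (
  let v58 := add v56 v57; ok v58 && (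
  let v59 := scale ⟨14716567552000, 0, 0, 0⟩ v46; ok v59 && (
  let v60 := add v58 v59; ok v60 && (
  let v61 := cst ⟨594412175360, 0, 0, 0⟩; ok v61 && (
  let v62 := add v60 v61; ok v62 && (
  let v63 := mul x0 v18; ok v63 && (
  let v64 := mul v63 v62; ok v64 && (
  let v65 := add v64 v0; ok v65 && (
  let v66 := mul v51 v65; ok v66 && (
  let v67 := scale ⟨2199023255552, 0, 0, 0⟩ v47; ok v67 && (
  let v68 := mul v62 v51; ok v68 && (
  let v69 := sub v67 v68; ok v69 && (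
  isPos 2 v69 && (
  let v70 := scale ⟨31547129856, 0, 0, 0⟩ v43; ok v70 && (
  let v71 := scale ⟨1381302272, 0, 0, 0⟩ v44; ok v71 && (
  let v72 := add v70 v71; ok v72 && (
  let v73 := scale ⟨0, 477691904, 0, 0⟩ v45; ok v73 && (
  let v74 := add v72 v73; ok v74 && (
  let v75 := scale ⟨38906731560960, 0, 0, 0⟩ v41; ok v75 && (
  let v76 := add v74 v75; ok v76 && (
  let v77 := scale ⟨7086705278976, 0, 0, 0⟩ v46; ok v77 && (
  let v78 := add v76 v77; ok v78 && (
  let v79 := cst ⟨305913593856, 0, 0, 0⟩; ok v79 && (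
  let v80 := add v78 v79; ok v80 && (
  isPos 2 v80 && (
  let v81 := cst ⟨13143673667584, 0, 0, 0⟩; ok v81 && (
  let v82 := add v19 v81; ok v82 && (
  isPos 2 v82 && (
  let v83 := cst ⟨6408896512, 0, 0, 0⟩; ok v83 && (
  let v84 := sub x0 v83; ok v84 && (
  let v85 := cst ⟨5497558138880, 0, 0, 0⟩; ok v85 && (
  let v86 := sub x1 v85; ok v86 && (
  let v87 := mul v86 v86; ok v87 && (
  let v88 := mul v87 v86; ok v88 && (
  let v89 := mul v84 v86; ok v89 && (
  let v90 := mul v4 v4; ok v90 && (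
  let v91 := mul v90 v90; ok v91 && (
  let v92 := scale ⟨8796093022208, 0, 0, 0⟩ v1; ok v92 && (
  let v93 := neg v92; ok v93 && (
  let v94 := exp v93; ok v94 && (
  let v95 := scale ⟨0, 35791634432, 0, 0⟩ v86; ok v95 && (
  let v96 := scale ⟨0, 13085704192, 0, 0⟩ v87; ok v96 && (
  let v97 := add v95 v96; ok v97 && (
  let v98 := scale ⟨22448635904, 0, 0, 0⟩ v88; ok v98 && (
  let v99 := add v97 v98; ok v99 && (
  let v100 := scale ⟨63468202950656, 0, 0, 0⟩ v84; ok v100 && (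
  let v101 := add v99 v100; ok v101 && (
  let v102 := scale ⟨21803272830976, 0, 0, 0⟩ v89; ok v102 && (
  let v103 := add v101 v102; ok v103 && (
  let v104 := cst ⟨900325769216, 0, 0, 0⟩; ok v104 && (
  let v105 := add v103 v104; ok v105 && (
  let v106 := mul x0 v18; ok v106 && (
  let v107 := mul v106 v105; ok v107 && (
  let v108 := add v107 v0; ok v108 && (
  let v109 := mul v94 v108; ok v109 && (
  let v110 := scale ⟨1099511627776, 0, 0, 0⟩ v91; ok v110 && (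
  let v111 := add v110 v0; ok v111 && (
  let v112 := mul v90 v111; ok v112 && (
  let v113 := scale ⟨2199023255552, 0, 0, 0⟩ v112; ok v113 && (
  let v114 := mul v105 v94; ok v114 && (
  let v115 := sub v113 v114; ok v115 && (
  isPos 2 v115 && (
  let v116 := scale ⟨29520625664, 0, 0, 0⟩ v86; ok v116 && (
  let v117 := scale ⟨942997504, 0, 0, 0⟩ v87; ok v117 && (
  let v118 := add v116 v117; ok v118 && (
  let v119 := scale ⟨155123712, 0, 0, 0⟩ v88; ok v119 && (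
  let v120 := add v118 v119; ok v120 && (
  let v121 := scale ⟨35317920563200, 0, 0, 0⟩ v84; ok v121 && (
  let v122 := add v120 v121; ok v122 && (
  let v123 := scale ⟨5714105729024, 0, 0, 0⟩ v89; ok v123 && (
  let v124 := add v122 v123; ok v124 && (
  let v125 := cst ⟨285339942912, 0, 0, 0⟩; ok v125 && (
  let v126 := add v124 v125; ok v126 && (
  isPos 2 v126 && (
  let v127 := cst ⟨15691663015936, 0, 0, 0⟩; ok v127 && (
  let v128 := add v19 v127; ok v128 && (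
  isPos 2 v128 && (
  let v129 := cst ⟨6408896512, 0, 0, 0⟩; ok v129 && (
  let v130 := sub x0 v129; ok v130 && (
  let v131 := cst ⟨5497558138880, 0, 0, 0⟩; ok v131 && (
  let v132 := sub x1 v131; ok v132 && (
  let v133 := mul v132 v132; ok v133 && (
  let v134 := mul v133 v132; ok v134 && (
  let v135 := mul v130 v132; ok v135 && (
  let v136 := mul v4 v4; ok v136 && (
  let v137 := mul v136 v136; ok v137 && (
  let v138 := scale ⟨13194139533312, 0, 0, 0⟩ v1; ok v138 && (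
  let v139 := neg v138; ok v139 && (
  let v140 := exp v139; ok v140 && (
  let v141 := scale ⟨0, 6271008768, 0, 0⟩ v132; ok v141 && (
  let v142 := scale ⟨0, 12142706688, 0, 0⟩ v133; ok v142 && (
  let v143 := add v141 v142; ok v143 && (
  let v144 := scale ⟨22603759616, 0, 0, 0⟩ v134; ok v144 && (
  let v145 := add v143 v144; ok v145 && (
  let v146 := scale ⟨98786123513856, 0, 0, 0⟩ v130; ok v146 && (
  let v147 := add v145 v146; ok v147 && (
  let v148 := scale ⟨27517378560000, 0, 0, 0⟩ v135; ok v148 && (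
  let v149 := add v147 v148; ok v149 && (
  let v150 := cst ⟨1185665712128, 0, 0, 0⟩; ok v150 && (
  let v151 := add v149 v150; ok v151 && (
  let v152 := mul x0 v18; ok v152 && (
  let v153 := mul v152 v151; ok v153 && (
  let v154 := add v153 v0; ok v154 && (
  let v155 := mul v140 v154; ok v155 && (
  let v156 := scale ⟨1099511627776, 0, 0, 0⟩ v137; ok v156 && (
  let v157 := add v156 v0; ok v157 && (
  let v158 := mul v137 v157; ok v158 && (
  let v159 := add v158 v0; ok v159 && (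
  let v160 := mul v136 v159; ok v160 && (
  let v161 := scale ⟨2199023255552, 0, 0, 0⟩ v160; ok v161 && (
  let v162 := mul v151 v140; ok v162 && (
  let v163 := sub v161 v162; ok v163 && (
  isPos 2 v163 && (
  let v164 := scale ⟨29895426048, 0, 0, 0⟩ v132; ok v164 && (
  let v165 := scale ⟨1414529024, 0, 0, 0⟩ v133; ok v165 && (
  let v166 := add v164 v165; ok v166 && (
  let v167 := scale ⟨0, 606142464, 0, 0⟩ v134; ok v167 && (
  let v168 := add v166 v167; ok v168 && (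
  let v169 := scale ⟨32481758871552, 0, 0, 0⟩ v130; ok v169 && (
  let v170 := add v168 v169; ok v170 && (
  let v171 := scale ⟨5035621810176, 0, 0, 0⟩ v135; ok v171 && (
  let v172 := add v170 v171; ok v172 && (
  let v173 := cst ⟨268988514304, 0, 0, 0⟩; ok v173 && (
  let v174 := add v172 v173; ok v174 && (
  isPos 2 v174 && (
  let v175 := cst ⟨17485885603840, 0, 0, 0⟩; ok v175 && (
  let v176 := add v19 v175; ok v176 && (
  isPos 2 v176 && (
  let v177 := cst ⟨6408896512, 0, 0, 0⟩; ok v177 && (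
  let v178 := sub x0 v177; ok v178 && (
  let v179 := cst ⟨5497558138880, 0, 0, 0⟩; ok v179 && (
  let v180 := sub x1 v179; ok v180 && (
  let v181 := mul v180 v180; ok v181 && (
  let v182 := mul v181 v180; ok v182 && (
  let v183 := mul v178 v180; ok v183 && (
  let v184 := mul v4 v4; ok v184 && (
  let v185 := mul v184 v184; ok v185 && (
  let v186 := scale ⟨17592186044416, 0, 0, 0⟩ v1; ok v186 && (
  let v187 := neg v186; ok v187 && (
  let v188 := exp v187; ok v188 && (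
  let v189 := scale ⟨23624417280, 0, 0, 0⟩ v180; ok v189 && (
  let v190 := scale ⟨0, 10728177664, 0, 0⟩ v181; ok v190 && (
  let v191 := add v189 v190; ok v191 && (
  let v192 := scale ⟨21997617152, 0, 0, 0⟩ v182; ok v192 && (
  let v193 := add v191 v192; ok v193 && (
  let v194 := scale ⟨131267882385408, 0, 0, 0⟩ v178; ok v194 && (
  let v195 := add v193 v194; ok v195 && (
  let v196 := scale ⟨32553000370176, 0, 0, 0⟩ v183; ok v196 && (
  let v197 := add v195 v196; ok v197 && (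
  let v198 := cst ⟨1454654226432, 0, 0, 0⟩; ok v198 && (
  let v199 := add v197 v198; ok v199 && (
  let v200 := mul x0 v18; ok v200 && (
  let v201 := mul v200 v199; ok v201 && (
  let v202 := add v201 v0; ok v202 && (
  let v203 := mul v188 v202; ok v203 && (
  let v204 := scale ⟨1099511627776, 0, 0, 0⟩ v185; ok v204 && (
  let v205 := add v204 v0; ok v205 && (
  let v206 := mul v185 v205; ok v206 && (
  let v207 := add v206 v0; ok v207 && (
  let v208 := mul v185 v207; ok v208 && (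
  let v209 := add v208 v0; ok v209 && (
  let v210 := mul v184 v209; ok v210 && (
  let v211 := scale ⟨2199023255552, 0, 0, 0⟩ v210; ok v211 && (
  let v212 := mul v199 v188; ok v212 && (
  let v213 := sub v211 v212; ok v213 && (
  isPos 2 v213 && (
  let v214 := scale ⟨29820059648, 0, 0, 0⟩ v180; ok v214 && (
  let v215 := scale ⟨0, 203948032, 0, 0⟩ v181; ok v215 && (
  let v216 := add v214 v215; ok v216 && (
  let v217 := scale ⟨0, 1266810880, 0, 0⟩ v182; ok v217 && (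
  let v218 := add v216 v217; ok v218 && (
  let v219 := scale ⟨30028952240128, 0, 0, 0⟩ v178; ok v219 && (
  let v220 := add v218 v219; ok v220 && (
  let v221 := scale ⟨3593694150656, 0, 0, 0⟩ v183; ok v221 && (
  let v222 := add v220 v221; ok v222 && (
  let v223 := cst ⟨258633302016, 0, 0, 0⟩; ok v223 && (
  let v224 := add v222 v223; ok v224 && (
  isPos 2 v224 && (
  let v225 := cst ⟨18874233782272, 0, 0, 0⟩; ok v225 && (
  let v226 := add v19 v225; ok v226 && (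
  isPos 2 v226 && (
  let v227 := cst ⟨6408896512, 0, 0, 0⟩; ok v227 && (
  let v228 := sub x0 v227; ok v228 && (
  let v229 := cst ⟨5497558138880, 0, 0, 0⟩; ok v229 && (
  let v230 := sub x1 v229; ok v230 && (
  let v231 := mul v230 v230; ok v231 && (
  let v232 := mul v231 v230; ok v232 && (
  let v233 := mul v228 v230; ok v233 && (
  let v234 := mul v4 v4; ok v234 && (
  let v235 := mul v234 v234; ok v235 && (
  let v236 := scale ⟨21990232555520, 0, 0, 0⟩ v1; ok v236 && (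
  let v237 := neg v236; ok v237 && (
  let v238 := exp v237; ok v238 && (
  let v239 := scale ⟨53444476928, 0, 0, 0⟩ v230; ok v239 && (
  let v240 := scale ⟨0, 10932125696, 0, 0⟩ v231; ok v240 && (
  let v241 := add v239 v240; ok v241 && (
  let v242 := scale ⟨20730806272, 0, 0, 0⟩ v232; ok v242 && (
  let v243 := add v241 v242; ok v243 && (
  let v244 := scale ⟨161296834625536, 0, 0, 0⟩ v228; ok v244 && (
  let v245 := add v243 v244; ok v245 && (
  let v246 := scale ⟨36146694520832, 0, 0, 0⟩ v233; ok v246 && (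
  let v247 := add v245 v246; ok v247 && (
  let v248 := cst ⟨1713287528448, 0, 0, 0⟩; ok v248 && (
  let v249 := add v247 v248; ok v249 && (
  let v250 := mul x0 v18; ok v250 && (
  let v251 := mul v250 v249; ok v251 && (
  let v252 := add v251 v0; ok v252 && (
  let v253 := mul v238 v252; ok v253 && (
  let v254 := scale ⟨1099511627776, 0, 0, 0⟩ v235; ok v254 && (
  let v255 := add v254 v0; ok v255 && (
  let v256 := mul v235 v255; ok v256 && (
  let v257 := add v256 v0; ok v257 && (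
  let v258 := mul v235 v257; ok v258 && (
  let v259 := add v258 v0; ok v259 && (
  let v260 := mul v235 v259; ok v260 && (
  let v261 := add v260 v0; ok v261 && (
  let v262 := mul v234 v261; ok v262 && (
  let v263 := scale ⟨2199023255552, 0, 0, 0⟩ v262; ok v263 && (
  let v264 := mul v249 v238; ok v264 && (
  let v265 := sub v263 v264; ok v265 && (
  isPos 2 v265 && (
  let v266 := mul x0 v18; ok v266 && (
  let v267 := mul v266 v249; ok v267 && (
  let v268 := add v267 v0; ok v268 && (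
  let v269 := scale ⟨4617947578368, 0, 0, 0⟩ v1; ok v269 && (
  let v270 := neg v269; ok v270 && (
  let v271 := exp v270; ok v271 && (
  let v272 := mul v268 v271; ok v272 && (
  isLt v272 1099511627520 && (
  true))))))))))))))))))))))))))))))))))))))))))))))))))))))))))))))))))))))))))))))))))))))))))))))))))))))))))))))))))))))))))))))))))))))))))))))))))))))))))))))))))))))))))))))))))))))))))))))))))))))))))))))))))))))))))))))))))))))))))))))))))))))))))))))))))))))))))))))))))))))))))))))))))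
  | _ => false

set_option maxRecDepth 1000000 in
theorem c_S_0_eq (X : XOps) (m : List X.O.α)
    (h : c_S_0 X.O.cst X.O.add X.O.sub X.O.mul X.O.scale X.O.neg X.O.inv X.O.exp X.O.log X.O.ok
      X.O.isPos X.O.isLt X.ball X.rball m = true) :
    runX X 2 p_S_0 m = true := by
  match m, h with
  | [x0, x1], h => exact h

abbrev gS : List (List Op) := [p_S_0]

noncomputable abbrev kS : List (List xE.O.α → Bool) := [c_S_0 xE.O.cst xE.O.add xE.O.sub xE.O.mul xE.O.scale xE.O.neg xE.O.inv xE.O.exp xE.O.log xE.O.ok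
      xE.O.isPos xE.O.isLt xE.ball xE.rball]

theorem kS_eq : List.Forall₂ (fun (ops : List Op) (chk : List xE.O.α → Bool) =>
    ∀ m, chk m = true → runX xE 2 ops m = true) gS kS :=
  List.Forall₂.cons (c_S_0_eq xE) List.Forall₂.nil

theorem gS_eq : gS = [PSS tab 5] := by decide +kernel

end Pool.Agent.helper14.NS.Q150f
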