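import Pool.Agent.helper14.NS.Cert

/-!
Generated: table Q150f.
-/

namespace Pool.Agent.helper14.NS.Q150f

open Pool.Agent.helper63.NF Pool.Agent.helper4.NS

def tab : TD where
  strip := false
  bm := none
  ec := 6408896512
  bc := 5497558138880
  H := [[[4697698560, 3378543808, -29380544, -134105984], [2470964835584, -11423655424], [-4864408137664]], [[435135936, -233645440, 20138752], [-94729845696]], [[-51373696, 5708864], [1228264576]], [[1879296]], [[-26048]]]
  pol := some ⟨-3235452551168, -277523606798336, 5872294035456, 31362867265536, [[-125864585088, -13312983040], [-29265151899520, 0]], [[649430117824, -90825542464], [93836166731264, 0]]⟩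
  a := [[[408679088128, -15834284032, -274313183232, 21763784704], [11711488917504, 6297317277696]], [[9224060928, 285802496, 335413248, -324206592], [43191959552, 488599977984]], [[8796110848, 0, 0, 0], [0, 0]], [[8796110848, 0, 0, 0], [0, 0]], [[8796110848, 0, 0, 0], [0, 0]]]
  j := [12369505812480, 3435973836800, 4398046511104, 6597069766656, 8796093022208]
  c := [439697276928, 329907175424, 219848638464, 164819369984, 110058536960]
  M := [[[[1105153622016, 2553348096, -2834169856], [1812146946048, 1180713811968], [220035240165376]], [[24370348032, 1307574272], [4121237127168]], [[11289034752, -6355484672], [-722764103680]], [[4890689536]], [[-4040753152]], [[12628983808]]], [[[1105508106240, 1827733504, 77529088], [1253707022336]], [[3219652608, 62128128], [551202062336]], [[-6946816]], [[196608]]], [[[1105586028544, 1993211904, 224788480], [1273387417600]], [[3069378560, 29294592], [574798888960]], [[7995392]], [[-196608]]], [[[1105676140544, 2195128320, 202964992], [1496736333824]], [[3061907456, 4063232], [589254426624]], [[9437184]], [[-196608]]], [[[1105405935616, 2289631232, 280363008], [1672319598592]], [[3104571392, -3932160], [582196527104]], [[6946816]], [[-131072]]]]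
  l0 := [[[3678175585536, 98246344320, 914365962752, -15022982720, -775846520832], [16880281554432, -45680187011200]], [[1274162593984, -331819290304, 43842616768, 50575453184], [-109254481605312, 43932383625344]], [[484119696384, 431615968256, 44158202240, -65216551808], [120366218173888]], [[848071330752, -96119200768, -139386711232], [-98745691646912]], [[294418687552, -170529028544]], [[-484765457920, 370087201344]], [[690025783296]], [[-421567106560]]]
  q0 := [[138125513792, 37036760640, 36531803072, 5791161856, -27261680192, -4922424448], [28224434470912, 8220046355904, -26840849856], [126688979366208]]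
  t := [[[594412175360, -67338764288, -14467006464, 22926327808], [24561471389696, 14716567552000]], [[305913593856, 31547129856, 1381302272, -477691904], [38906731560960, 7086705278976]], [[285339942912, 29520625664, 942997504, 155123712], [35317920563200, 5714105729024]], [[268988514304, 29895426048, 1414529024, -606142464], [32481758871552, 5035621810176]], [[258633302016, 29820059648, -203948032, -1266810880], [30028952240128, 3593694150656]]]
  y := [9525163720704, 13143673667584, 15691663015936, 17485885603840, 18874233782272]
  sc := [0, 0, 0, 0, 0]
  L := [(0, 2), (0, 3), (0, 4), (0, 5), (1, 1), (1, 2), (2, 0)]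
  Lt := [(0, 2), (0, 3), (1, 1)]
  far := 4
  x2 := 10885165744128
  B1 := 1979120091136
  C2 := 1708879162368
  f1 := 0
  f2 := 0
  f3 := 0
  is1 := 8796093022208
  s1 := 137438953472

end Pool.Agent.helper14.NS.Q150f
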